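import Pool.Agent.L7h77.FA.Seg
import Pool.Agent.L7h73.FA.Dua

/-! Project FA: S_W. -/

set_option autoImplicit false
set_option linter.unusedVariables false

open MeasureTheory Set

namespace Pool.Agent.L7h77.FA.NM

open Pool.Agent.L7h77.FA

/-- the cone lemma -/
theorem cone {a1 b1 a2 b2 β1 β2 V L X Y : ℝ} (hD : 0 < a1 * b2 - b1 * a2) (hL : 0 ≤ L)
    (hW : (b2 * β1 - b1 * β2) ^ 2 + (a1 * β2 - a2 * β1) ^ 2 ≤ V * (a1 * b2 - b1 * a2) ^ 2)
    (h1 : a1 * X + b1 * Y ≤ β1 * L) (h2 : a2 * X + b2 * Y ≤ β2 * L)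
    (c1 : 0 ≤ a1 * Y - b1 * X) (c2 : 0 ≤ X * b2 - Y * a2) : X ^ 2 + Y ^ 2 ≤ V * L ^ 2 := by
  set D := a1 * b2 - b1 * a2 with hDd
  set Q := X * (b2 * β1 - b1 * β2) + Y * (a1 * β2 - a2 * β1) with hQ
  set P := X ^ 2 + Y ^ 2 with hP
  have hP0 : 0 ≤ P := by positivity
  have e1 : P * D = (X * b2 - Y * a2) * (a1 * X + b1 * Y) + (a1 * Y - b1 * X) * (a2 * X + b2 * Y) := by
    rw [hP, hDd]; ring
  have e2 : P * D ≤ L * Q := by
    rw [e1]
    have := mul_le_mul_of_nonneg_left h1 c2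
    have := mul_le_mul_of_nonneg_left h2 c1
    rw [hQ]; linarith
  have e3 : Q ^ 2 ≤ P * (V * D ^ 2) := by
    have : Q ^ 2 ≤ P * ((b2 * β1 - b1 * β2) ^ 2 + (a1 * β2 - a2 * β1) ^ 2) := by
      rw [hQ, hP]
      nlinarith [sq_nonneg (X * (a1 * β2 - a2 * β1) - Y * (b2 * β1 - b1 * β2))]
    exact this.trans (mul_le_mul_of_nonneg_left hW hP0)
  have e4 : (P * D) ^ 2 ≤ (L * Q) ^ 2 := pow_le_pow_left₀ (by positivity) e2 2
  have hV : 0 ≤ V := by
    by_contra hneg
    push Not at hneg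
    have : V * D ^ 2 < 0 := mul_neg_of_neg_of_pos hneg (by positivity)
    nlinarith [sq_nonneg (b2 * β1 - b1 * β2), sq_nonneg (a1 * β2 - a2 * β1)]
  rcases hP0.eq_or_lt with h0 | h0
  · rw [← h0]; positivity
  · have e5 : P * (P * D ^ 2) ≤ P * (V * L ^ 2 * D ^ 2) := by
      have : L ^ 2 * Q ^ 2 ≤ L ^ 2 * (P * (V * D ^ 2)) := mul_le_mul_of_nonneg_left e3 (sq_nonneg L)
      nlinarith
    have e6 := le_of_mul_le_mul_left e5 h0
    exact le_of_mul_le_mul_right e6 (by positivity)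

/-- six directions and the reflected ones -/
theorem six {X Y L : ℝ} (hL : 0 ≤ L) (hY : 0 ≤ Y)
    (h1 : 32906434491125 * X + 0 * Y ≤ 172998 * 32906434491125 / 100000 * L)
    (h2 : 23687087670675 * X + 22841963764100 * Y ≤ 174641 * 32906434491125 / 100000 * L)
    (h3 : 3000761735400 * X + 32769328035925 * Y ≤ 178361 * 32906434491125 / 100000 * L)
    (h4 : -15652311447500 * X + 28945441390125 * Y ≤ 181954 * 32906434491125 / 100000 * L)
    (h5 : -27256387950675 * X + 18436993974100 * Y ≤ 184112 * 32906434491125 / 100000 * L)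
    (h6 : -32322754748115 * X + 6170328711820 * Y ≤ 185049 * 32906434491125 / 100000 * L)
    (h7 : -32322754748115 * X + (-6170328711820) * Y ≤ 185049 * 32906434491125 / 100000 * L) :
    X ^ 2 + Y ^ 2 ≤ 18 / 5 * L ^ 2 := by
  by_cases d1 : 0 ≤ X * 22841963764100 - Y * 23687087670675
  · exact cone (by norm_num) hL (by norm_num) h1 h2 (by linarith) d1
  push Not at d1
  by_cases d2 : 0 ≤ X * 32769328035925 - Y * 3000761735400
  · exact cone (by norm_num) hL (by norm_num) h2 h3 (by linarith) d2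
  push Not at d2
  by_cases d3 : 0 ≤ X * 28945441390125 - Y * (-15652311447500)
  · exact cone (by norm_num) hL (by norm_num) h3 h4 (by linarith) d3
  push Not at d3
  by_cases d4 : 0 ≤ X * 18436993974100 - Y * (-27256387950675)
  · exact cone (by norm_num) hL (by norm_num) h4 h5 (by linarith) d4
  push Not at d4
  by_cases d5 : 0 ≤ X * 6170328711820 - Y * (-32322754748115)
  · exact cone (by norm_num) hL (by norm_num) h5 h6 (by linarith) d5
  push Not at d5
  exact cone (by norm_num) hL (by norm_num) h6 h7 (by linarith) (by nlinarith)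

/-- the bound in one direction -/
theorem dir_bound (z1 z2 z3 : ℤ × ℤ) (β A B : ℤ) (hcert : cert z1 z2 z3 β = true)
    (hA : cA z1 z2 z3 = A) (hB : cB z1 z2 z3 = B)
    (hμ : |3 * A - cM z1 z2 z3| ≤ 6 * NN ^ 3) (hl : |3 * B + cL z1 z2 z3| ≤ 6 * NN ^ 3)
    (hβ : 100000 ≤ β) {r : ℝ} {f : ℝ → ℝ} (hr : 0 ≤ r) (hr1 : r < 1) (hf : LipR r f) :
    (A : ℝ) * xx r f + B * yy r f ≤ (β : ℝ) * (NN : ℝ) ^ 3 / 100000 *
      (2 * r / (1 + r) + 3 * (r / √(1 - r ^ 2)) * (|m1 r f| + |m2 r f|)) := by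
  have hN := NN_pos
  have hN3 : (0 : ℝ) < (NN : ℝ) ^ 3 := by positivity
  have hc := Pool.Agent.L7h73.FA.c_pos hr hr1
  have h := Pool.Agent.L7h73.FA.s_N1 r f hr hr1 hf (rc (cA z1 z2 z3)) (rc (cB z1 z2 z3))
    (rc (cM z1 z2 z3)) (rc (cL z1 z2 z3))
  have h2 := mul_le_mul_of_nonneg_left (cert_bound hcert hr hr1) hr
  have h3 : rc (cA z1 z2 z3) * xx r f + rc (cB z1 z2 z3) * yy r f ≤
      r / √(1 - r ^ 2) / 2 * ((3 * rc (cA z1 z2 z3) - rc (cM z1 z2 z3)) * m1 r f +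
      (3 * rc (cB z1 z2 z3) + rc (cL z1 z2 z3)) * m2 r f) +
      r * (2 / (1 + r) * ((β : ℝ) / 100000)) := h.trans (by
        have : (r * ∫ w in (0 : ℝ)..Real.pi, (|kk (rc (cA z1 z2 z3)) (rc (cB z1 z2 z3))
          (rc (cM z1 z2 z3)) (rc (cL z1 z2 z3)) w| - r * Real.sin w * kk (rc (cA z1 z2 z3))
          (rc (cB z1 z2 z3)) (rc (cM z1 z2 z3)) (rc (cL z1 z2 z3)) w) /
          (1 - r ^ 2 * Real.sin w ^ 2)) ≤ r * (2 / (1 + r) * ((β : ℝ) / 100000)) := h2
        linarith)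
  rw [hA, hB] at h3
  have k1 : |3 * rc A - rc (cM z1 z2 z3)| ≤ 6 := by
    have h5 : |(3 * (A : ℝ) - (cM z1 z2 z3 : ℤ))| ≤ 6 * (NN : ℝ) ^ 3 := by exact_mod_cast hμ
    rw [rc, rc, show 3 * ((A : ℝ) / (NN : ℝ) ^ 3) - ((cM z1 z2 z3 : ℤ) : ℝ) / (NN : ℝ) ^ 3 =
      (3 * (A : ℝ) - (cM z1 z2 z3 : ℤ)) / (NN : ℝ) ^ 3 by ring, abs_div, abs_of_pos hN3,
      div_le_iff₀ hN3]
    exact h5
  have k2 : |3 * rc B + rc (cL z1 z2 z3)| ≤ 6 := by
    have h5 : |(3 * (B : ℝ) + (cL z1 z2 z3 : ℤ))| ≤ 6 * (NN : ℝ) ^ 3 := by exact_mod_cast hl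
    rw [rc, rc, show 3 * ((B : ℝ) / (NN : ℝ) ^ 3) + ((cL z1 z2 z3 : ℤ) : ℝ) / (NN : ℝ) ^ 3 =
      (3 * (B : ℝ) + (cL z1 z2 z3 : ℤ)) / (NN : ℝ) ^ 3 by ring, abs_div, abs_of_pos hN3,
      div_le_iff₀ hN3]
    exact h5
  have k3 : (3 * rc A - rc (cM z1 z2 z3)) * m1 r f + (3 * rc B + rc (cL z1 z2 z3)) * m2 r f ≤
      6 * (|m1 r f| + |m2 r f|) := by
    have g1 : (3 * rc A - rc (cM z1 z2 z3)) * m1 r f ≤ 6 * |m1 r f| :=
      (le_abs_self _).trans (by rw [abs_mul]; exact mul_le_mul_of_nonneg_right k1 (abs_nonneg _))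
    have g2 : (3 * rc B + rc (cL z1 z2 z3)) * m2 r f ≤ 6 * |m2 r f| :=
      (le_abs_self _).trans (by rw [abs_mul]; exact mul_le_mul_of_nonneg_right k2 (abs_nonneg _))
    linarith
  have hτ : 0 ≤ r / √(1 - r ^ 2) := div_nonneg hr hc.le
  have k4 := mul_le_mul_of_nonneg_left k3 (by positivity : 0 ≤ r / √(1 - r ^ 2) / 2)
  have hβ' : (1 : ℝ) ≤ (β : ℝ) / 100000 := by
    rw [le_div_iff₀ (by norm_num)]
    have : (100000 : ℝ) ≤ β := by exact_mod_cast hβ
    linarith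
  have k5 : rc A * xx r f + rc B * yy r f ≤ (β : ℝ) / 100000 *
      (2 * r / (1 + r) + 3 * (r / √(1 - r ^ 2)) * (|m1 r f| + |m2 r f|)) := by
    have g : 3 * (r / √(1 - r ^ 2)) * (|m1 r f| + |m2 r f|) ≤
        (β : ℝ) / 100000 * (3 * (r / √(1 - r ^ 2)) * (|m1 r f| + |m2 r f|)) :=
      le_mul_of_one_le_left (by positivity) hβ'
    have e : r * (2 / (1 + r) * ((β : ℝ) / 100000)) = (β : ℝ) / 100000 * (2 * r / (1 + r)) := by
      ring
    rw [e] at h3
    have e2 : r / √(1 - r ^ 2) / 2 * (6 * (|m1 r f| + |m2 r f|)) =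
      3 * (r / √(1 - r ^ 2)) * (|m1 r f| + |m2 r f|) := by ring
    rw [e2] at k4
    rw [mul_add]
    linarith
  have k6 := mul_le_mul_of_nonneg_left k5 hN3.le
  have e3 : (NN : ℝ) ^ 3 * (rc A * xx r f + rc B * yy r f) = A * xx r f + B * yy r f := by
    simp only [rc]; field_simp
  rw [e3] at k6
  refine k6.trans (le_of_eq ?_)
  ring

/-- reflection -/
theorem lip_refl {r : ℝ} {f : ℝ → ℝ} (hf : LipR r f) : LipR r (fun w => f (-w)) := by
  constructor
  · intro w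
    have := hf.per (-(w + 2 * Real.pi))
    rw [show -(w + 2 * Real.pi) + 2 * Real.pi = -w by ring] at this
    exact this.symm
  · intro w w'
    refine (hf.lip (-w) (-w')).trans (le_of_eq ?_)
    have h1 : ∫ u in (-w)..(-w'), rho r u = ∫ u in w'..w, rho r (-u) := by
      rw [intervalIntegral.integral_comp_neg]
    have h2 : ∀ u, rho r (-u) = rho r u := by intro u; simp [rho]
    rw [h1]
    simp only [h2]
    rw [intervalIntegral.integral_symm, abs_neg]

theorem int_refl {G : ℝ → ℝ} (hG : ∀ w, G (w + 2 * Real.pi) = G w) :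
    ∫ w in (0 : ℝ)..(2 * Real.pi), G (-w) = ∫ w in (0 : ℝ)..(2 * Real.pi), G w := by
  rw [intervalIntegral.integral_comp_neg]
  have hp : Function.Periodic G (2 * Real.pi) := hG
  have := hp.intervalIntegral_add_eq (-(2 * Real.pi)) 0
  rw [neg_add_cancel, zero_add] at this
  rw [neg_zero]
  exact this

theorem aa_neg (r w : ℝ) : aa r (-w) = aa r w := by simp [aa]

theorem refl_m1 {r : ℝ} {f : ℝ → ℝ} (hf : LipR r f) : m1 r (fun w => f (-w)) = m1 r f := by
  unfold m1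
  rw [← int_refl (G := fun w => (f w - aa r w) * Real.cos w)]
  · exact intervalIntegral.integral_congr fun w _ => by
      simp only [aa_neg, Real.cos_neg]
  · intro w
    simp only [hf.per, Pool.Agent.L7h73.FA.aa_per, Real.cos_add_two_pi]

theorem refl_m2 {r : ℝ} {f : ℝ → ℝ} (hf : LipR r f) : m2 r (fun w => f (-w)) = -m2 r f := by
  unfold m2
  rw [← int_refl (G := fun w => (f w - aa r w) * Real.sin w), ← intervalIntegral.integral_neg]
  · exact intervalIntegral.integral_congr fun w _ => by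
      simp only [aa_neg, Real.sin_neg]; ring
  · intro w
    simp only [hf.per, Pool.Agent.L7h73.FA.aa_per, Real.sin_add_two_pi]

theorem refl_xx {r : ℝ} {f : ℝ → ℝ} (hf : LipR r f) : xx r (fun w => f (-w)) = xx r f := by
  unfold xx
  rw [← int_refl (G := fun w => (f w - aa r w) * (Real.cos w * Real.cos (2 * w)))]
  · congr 1
    exact intervalIntegral.integral_congr fun w _ => by
      simp only [aa_neg, Real.cos_neg, mul_neg]
  · intro w
    have : 2 * (w + 2 * Real.pi) = 2 * w + (2 : ℕ) * (2 * Real.pi) := by push_cast; ring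
    simp only [hf.per, Pool.Agent.L7h73.FA.aa_per, Real.cos_add_two_pi, this,
      Real.cos_add_nat_mul_two_pi]

theorem refl_yy {r : ℝ} {f : ℝ → ℝ} (hf : LipR r f) : yy r (fun w => f (-w)) = -yy r f := by
  unfold yy
  rw [← int_refl (G := fun w => (f w - aa r w) * (Real.cos w * Real.sin (2 * w))),
    ← mul_neg, ← intervalIntegral.integral_neg]
  · congr 1
    exact intervalIntegral.integral_congr fun w _ => by
      simp only [aa_neg, Real.cos_neg, mul_neg, Real.sin_neg, neg_neg]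
  · intro w
    have : 2 * (w + 2 * Real.pi) = 2 * w + (2 : ℕ) * (2 * Real.pi) := by push_cast; ring
    simp only [hf.per, Pool.Agent.L7h73.FA.aa_per, Real.cos_add_two_pi, this,
      Real.sin_add_nat_mul_two_pi]

/-- the bound for one function, upper half plane -/
theorem upper {r : ℝ} {f : ℝ → ℝ} (hr : 0 ≤ r) (hr1 : r < 1) (hf : LipR r f)
    (hY : 0 ≤ yy r f) : xx r f ^ 2 + yy r f ^ 2 ≤
      18 / 5 * (2 * r / (1 + r) + 3 * (r / √(1 - r ^ 2)) * (|m1 r f| + |m2 r f|)) ^ 2 := by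
  have hc := Pool.Agent.L7h73.FA.c_pos hr hr1
  have hL : 0 ≤ 2 * r / (1 + r) + 3 * (r / √(1 - r ^ 2)) * (|m1 r f| + |m2 r f|) := by positivity
  have hN3 : (NN : ℝ) ^ 3 = 32906434491125 := by norm_num [NN]
  have h1 := dir_bound _ _ _ 172998 32906434491125 0 cert1 (by norm_num [cA]) (by norm_num [cB])
    (by norm_num [cM, NN]) (by norm_num [cL, NN]) (by norm_num) hr hr1 hf
  have h2 := dir_bound _ _ _ 174641 23687087670675 22841963764100 cert2 (by norm_num [cA])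
    (by norm_num [cB]) (by norm_num [cM, NN, abs_le]) (by norm_num [cL, NN, abs_le]) (by norm_num)
    hr hr1 hf
  have h3 := dir_bound _ _ _ 178361 3000761735400 32769328035925 cert3 (by norm_num [cA])
    (by norm_num [cB]) (by norm_num [cM, NN, abs_le]) (by norm_num [cL, NN, abs_le]) (by norm_num)
    hr hr1 hf
  have h4 := dir_bound _ _ _ 181954 (-15652311447500) 28945441390125 cert4 (by norm_num [cA])
    (by norm_num [cB]) (by norm_num [cM, NN, abs_le]) (by norm_num [cL, NN, abs_le]) (by norm_num)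
    hr hr1 hf
  have h5 := dir_bound _ _ _ 184112 (-27256387950675) 18436993974100 cert5 (by norm_num [cA])
    (by norm_num [cB]) (by norm_num [cM, NN, abs_le]) (by norm_num [cL, NN, abs_le]) (by norm_num)
    hr hr1 hf
  have h6 := dir_bound _ _ _ 185049 (-32322754748115) 6170328711820 cert6 (by norm_num [cA])
    (by norm_num [cB]) (by norm_num [cM, NN, abs_le]) (by norm_num [cL, NN, abs_le]) (by norm_num)
    hr hr1 hf
  have h7 := dir_bound _ _ _ 185049 (-32322754748115) 6170328711820 cert6 (by norm_num [cA])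
    (by norm_num [cB]) (by norm_num [cM, NN, abs_le]) (by norm_num [cL, NN, abs_le]) (by norm_num)
    hr hr1 (lip_refl hf)
  rw [refl_m1 hf, refl_m2 hf, refl_xx hf, refl_yy hf, abs_neg] at h7
  rw [hN3] at h1 h2 h3 h4 h5 h6 h7
  push_cast at h1 h2 h3 h4 h5 h6 h7
  exact six hL hY h1 h2 h3 h4 h5 h6 (by linarith)

theorem both {r : ℝ} {f : ℝ → ℝ} (hr : 0 ≤ r) (hr1 : r < 1) (hf : LipR r f) :
    xx r f ^ 2 + yy r f ^ 2 ≤
      18 / 5 * (2 * r / (1 + r) + 3 * (r / √(1 - r ^ 2)) * (|m1 r f| + |m2 r f|)) ^ 2 := by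
  rcases le_total 0 (yy r f) with h | h
  · exact upper hr hr1 hf h
  · have := upper hr hr1 (lip_refl hf) (by rw [refl_yy hf]; linarith)
    rw [refl_m1 hf, refl_m2 hf, refl_xx hf, refl_yy hf, abs_neg, neg_sq] at this
    exact this

/-- crude bound for moments -/
theorem mom_bound {r : ℝ} {f : ℝ → ℝ} (hr : 0 ≤ r) (hr1 : r < 1) (hf : LipR r f) {k : ℝ → ℝ}
    (hk : Continuous k) (hk1 : ∀ w, |k w| ≤ 1) (hk0 : ∫ w in (0 : ℝ)..(2 * Real.pi), k w = 0) :
    |∫ w in (0 : ℝ)..(2 * Real.pi), (f w - aa r w) * k w| ≤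
      (√(1 - r ^ 2) / (1 - r ^ 2) * (2 * Real.pi) + Real.pi / 2) * (2 * Real.pi) := by
  have hfc := Pool.Agent.L7h73.FA.lip_cont hr hr1 hf
  have hac := Pool.Agent.L7h73.FA.aa_cont hr hr1
  have e : ∫ w in (0 : ℝ)..(2 * Real.pi), (f w - aa r w) * k w =
      ∫ w in (0 : ℝ)..(2 * Real.pi), (f w - f 0 - aa r w) * k w := by
    have : ∫ w in (0 : ℝ)..(2 * Real.pi), (f w - f 0 - aa r w) * k w =
        (∫ w in (0 : ℝ)..(2 * Real.pi), (f w - aa r w) * k w) -
          ∫ w in (0 : ℝ)..(2 * Real.pi), f 0 * k w := by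
      rw [← intervalIntegral.integral_sub (by apply Continuous.intervalIntegrable; fun_prop)
        (by apply Continuous.intervalIntegrable; fun_prop)]
      exact intervalIntegral.integral_congr fun w _ => by ring
    rw [this, intervalIntegral.integral_const_mul, hk0, mul_zero, sub_zero]
  rw [e]
  have h := intervalIntegral.norm_integral_le_of_norm_le_const
    (f := fun w => (f w - f 0 - aa r w) * k w) (a := 0) (b := 2 * Real.pi)
    (C := √(1 - r ^ 2) / (1 - r ^ 2) * (2 * Real.pi) + Real.pi / 2) (fun w hw => by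
      rw [uIoc_of_le (by positivity)] at hw
      rw [Real.norm_eq_abs, abs_mul]
      have g1 : |f w - f 0| ≤ √(1 - r ^ 2) / (1 - r ^ 2) * (2 * Real.pi) := by
        refine (Pool.Agent.L7h73.FA.lip_bound hr hr1 hf w 0).trans ?_
        have hpos : 0 ≤ √(1 - r ^ 2) / (1 - r ^ 2) :=
          div_nonneg (Real.sqrt_nonneg _) (Pool.Agent.L7h73.FA.sq_lt hr hr1).le
        refine mul_le_mul_of_nonneg_left ?_ hpos
        rw [sub_zero, abs_of_pos hw.1]
        exact hw.2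
      have g2 : |aa r w| ≤ Real.pi / 2 := by
        rw [aa, abs_le]
        exact ⟨(Real.neg_pi_div_two_lt_arctan _).le, (Real.arctan_lt_pi_div_two _).le⟩
      have g3 : |f w - f 0 - aa r w| ≤ √(1 - r ^ 2) / (1 - r ^ 2) * (2 * Real.pi) + Real.pi / 2 :=
        (abs_sub _ _).trans (add_le_add g1 g2)
      calc |f w - f 0 - aa r w| * |k w| ≤ |f w - f 0 - aa r w| * 1 :=
            mul_le_mul_of_nonneg_left (hk1 w) (abs_nonneg _)
        _ ≤ _ := by rw [mul_one]; exact g3)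
  rw [Real.norm_eq_abs, sub_zero, abs_of_pos (by positivity : (0 : ℝ) < 2 * Real.pi)] at h
  exact h

theorem s_W : S_W := by
  intro r0 hr0 hr01
  have hπ := Real.pi_pos
  set c0 := √(1 - r0 ^ 2) with hc0
  have hc0p : 0 < c0 := Pool.Agent.L7h73.FA.c_pos hr0.le hr01
  set B : ℝ := (1 / c0 * (2 * Real.pi) + Real.pi / 2) * (2 * Real.pi) with hB
  have hBp : 0 < B := by positivity
  set C1 : ℝ := 3 * (1 / c0) with hC1
  have hC1p : 0 < C1 := by positivity
  refine ⟨18 / 5 * (2 + C1 * (2 * B)) * C1, by positivity, fun r f hr hrr hf => ?_⟩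
  have hr1 : r < 1 := lt_of_le_of_lt hrr hr01
  have hcp : 0 < √(1 - r ^ 2) := Pool.Agent.L7h73.FA.c_pos hr hr1
  have hcc : c0 ≤ √(1 - r ^ 2) := Real.sqrt_le_sqrt (by nlinarith)
  have hinv : √(1 - r ^ 2) / (1 - r ^ 2) ≤ 1 / c0 := by
    have hs : (1 - r ^ 2) = √(1 - r ^ 2) ^ 2 := (Pool.Agent.L7h73.FA.c_sq hr hr1).symm
    have : √(1 - r ^ 2) / (1 - r ^ 2) = 1 / √(1 - r ^ 2) := by
      rw [div_eq_div_iff (Pool.Agent.L7h73.FA.sq_lt hr hr1).ne' hcp.ne']
      nlinarith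
    rw [this]
    exact one_div_le_one_div_of_le hc0p hcc
  have hb : (√(1 - r ^ 2) / (1 - r ^ 2) * (2 * Real.pi) + Real.pi / 2) * (2 * Real.pi) ≤ B := by
    rw [hB]
    gcongr
  have b1 : |m1 r f| ≤ B := (mom_bound hr hr1 hf Real.continuous_cos (fun w => Real.abs_cos_le_one w)
    (by rw [integral_cos]; simp)).trans hb
  have b2 : |m2 r f| ≤ B := (mom_bound hr hr1 hf Real.continuous_sin (fun w => Real.abs_sin_le_one w)
    (by rw [integral_sin]; simp)).trans hb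
  have hm := both hr hr1 hf
  set L := 2 * r / (1 + r) with hLd
  have hL0 : 0 ≤ L := by positivity
  have hL1 : L ≤ 1 := by rw [hLd, div_le_one (by positivity)]; linarith
  have hE : 3 * (r / √(1 - r ^ 2)) * (|m1 r f| + |m2 r f|) ≤ C1 * (|m1 r f| + |m2 r f|) := by
    refine mul_le_mul_of_nonneg_right ?_ (by positivity)
    rw [hC1]
    refine mul_le_mul_of_nonneg_left ?_ (by norm_num)
    rw [div_le_div_iff₀ hcp hc0p]
    nlinarith
  have hE0 : 0 ≤ 3 * (r / √(1 - r ^ 2)) * (|m1 r f| + |m2 r f|) := by positivity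
  set m := |m1 r f| + |m2 r f| with hmd
  have hm0 : 0 ≤ m := by positivity
  have hm2 : m ≤ 2 * B := by rw [hmd]; linarith
  have h1 : (L + 3 * (r / √(1 - r ^ 2)) * m) ^ 2 ≤ (L + C1 * m) ^ 2 :=
    pow_le_pow_left₀ (by positivity) (by linarith) 2
  have h2 : (L + C1 * m) ^ 2 ≤ L ^ 2 + (2 + C1 * (2 * B)) * C1 * m := by
    have g1 : C1 * m * (2 * L) ≤ C1 * m * 2 := mul_le_mul_of_nonneg_left (by linarith) (by positivity)
    have g2 : C1 * m * (C1 * m) ≤ C1 * m * (C1 * (2 * B)) :=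
      mul_le_mul_of_nonneg_left (mul_le_mul_of_nonneg_left hm2 hC1p.le) (by positivity)
    nlinarith
  rw [vv]
  nlinarith [h1, h2, hm]

end Pool.Agent.L7h77.FA.NM

namespace Pool.Agent.L7h77.FA

theorem s_W : S_W := NM.s_W

end Pool.Agent.L7h77.FA
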