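import Pool.Agent.L7h77.FA.Main
import Pool.Agent.L7h77.FA.W
import Pool.Agent.L7h22.FA.Cv
import Pool.Agent.L7h22.FA.Xs
import Pool.Agent.L7h22.FA.Fr2
import Pool.Agent.L7h73.FA.Det

/-! Project FA: the main theorem. -/

set_option autoImplicit false

open MeasureTheory Metric Set Filter Topology InnerProductGeometry

namespace Pool.Agent.L7h77.FA

theorem s_DET : S_DET :=
  Pool.Agent.L7h73.FA.s_DET Pool.Agent.L7h22.FA.s_PAR Pool.Agent.L7h22.FA.s_FR1
    Pool.Agent.L7h22.FA.s_FR2 Pool.Agent.L7h73.FA.s_N2 s_W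

theorem s_MAIN : S_MAIN :=
  MN.main_of Pool.Agent.L7h22.FA.s_CV (Pool.Agent.L7h22.FA.s_XS s_DET) Pool.Agent.L7h22.FA.s_RAD

end Pool.Agent.L7h77.FA
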