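import Pool.Agent.L7h77.FA.FFx
import Pool.Agent.L7h22.FA.Lq
import Pool.Agent.H241R3.FV.TDiff
import Pool.Agent.H241R3.FV.TMat
import Pool.Agent.H241R3.FV.TLoc
import Pool.Agent.H241R3.FV.Base

/-! Project FA: S_DQ. -/

set_option autoImplicit false
set_option linter.unusedVariables false

open MeasureTheory Metric Set Filter Topology InnerProductGeometry

namespace Pool.Agent.L7h77.FA

open Pool.Agent.H241R3.FV (E Sph sig ext gnorm act mat RChart Fill)

namespace DQ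

open Pool.Agent.H241R3.FV.TDiff

/-- weighted differentiation under the integral sign -/
theorem wdiff {n : ℕ} {U : Set (E n)} (hU : IsOpen U) {G : E n → Matrix (Fin n) (Fin n) ℝ}
    {F : Sph n → E n → ℝ}
    (hloc : ∀ p ∈ U, ∀ ε : ℝ, 0 < ε → ∃ r : ℝ, 0 < r ∧ ball p r ⊆ U ∧ ∀ x, ∀ y ∈ ball p r,
      ∀ z ∈ ball p r, |F x y - F x z| ≤ gnorm (G p) (y - z) + ε * ‖y - z‖)
    (hx : ∀ x x' : Sph n, ∀ p ∈ U, |F x p - F x' p| ≤ angle (x : E n) (x' : E n)) :
    ∀ᵐ p ∂(volume : Measure (E n)), p ∈ U → ∀ W : Sph n → ℝ, Continuous W → (∀ θ, 0 ≤ W θ) →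
      ∃ L : E n →L[ℝ] E n,
      HasFDerivAt (fun q => ∫ x : Sph n, (W x * F x q) • (x : E n) ∂(sig n)) L p ∧
      ∀ A : Matrix (Fin n) (Fin n) ℝ,
        (mat L * A).trace ≤ ∫ x : Sph n, W x * gnorm (G p) (act A (x : E n)) ∂(sig n) := by
  filter_upwards [ae_diff' hx hloc] with p hp hpU W hW hW0
  have hd := hp hpU
  obtain ⟨ρ, K, hρ, hK0, hKU, hK⟩ := local_lip hloc hpU
  have hcont := cont_uncurry hx hρ hKU hK
  have hm0 : Measurable fun a : Sph n × E n =>
      fderiv ℝ (fun q => F a.1 (clamp p ρ q)) a.2 := measurable_fderiv_with_param ℝ hcont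
  have hm1 : Measurable fun x : Sph n => fderiv ℝ (F x) p := by
    have h1 : Measurable fun x : Sph n => fderiv ℝ (fun q => F x (clamp p ρ q)) p :=
      hm0.comp (measurable_id.prodMk measurable_const)
    have h2 : (fun x : Sph n => fderiv ℝ (fun q => F x (clamp p ρ q)) p) =
        fun x : Sph n => fderiv ℝ (F x) p := by
      funext x
      exact (clamp_eventually p hρ (mem_ball_self hρ) (F x)).fderiv_eq
    rwa [h2] at h1
  have hm2 : AEStronglyMeasurable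
      (fun x : Sph n => (fderiv ℝ (F x) p).smulRight (W x • (x : E n))) (sig n) := by
    have h1 : StronglyMeasurable fun x : Sph n => fderiv ℝ (F x) p := hm1.stronglyMeasurable
    have h2 : StronglyMeasurable fun x : Sph n => W x • (x : E n) :=
      (hW.smul continuous_subtype_val).stronglyMeasurable
    have h3 : Continuous fun a : (E n →L[ℝ] ℝ) × E n => a.1.smulRight a.2 := by
      have := (ContinuousLinearMap.smulRightL ℝ (E n) (E n)).continuous₂
      exact this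
    exact (h3.comp_stronglyMeasurable (h1.prodMk h2)).aestronglyMeasurable
  have hint := hasFDerivAt_integral_of_dominated_loc_of_lip (μ := sig n) (x₀ := p)
    (s := ball p ρ) (F := fun q (x : Sph n) => (W x * F x q) • (x : E n))
    (F' := fun x : Sph n => (fderiv ℝ (F x) p).smulRight (W x • (x : E n)))
    (bound := fun x => W x * K)
    (ball_mem_nhds p hρ)
    (by
      filter_upwards [hU.mem_nhds hpU] with q hq
      exact ((hW.mul (cont_param hx hq)).smul continuous_subtype_val).aestronglyMeasurable)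
    (integrable_of_cont ((hW.mul (cont_param hx hpU)).smul continuous_subtype_val))
    hm2
    (by
      refine Eventually.of_forall fun x => ?_
      refine LipschitzOnWith.of_dist_le_mul fun y hy z hz => ?_
      rw [dist_eq_norm, dist_eq_norm, ← sub_smul, norm_smul, ← mul_sub]
      have hx1 : ‖(x : E n)‖ = 1 := by simpa using x.2
      rw [hx1, mul_one, Real.norm_eq_abs, abs_mul, abs_of_nonneg (hW0 x)]
      have h := hK x y (ball_subset_closedBall hy) z (ball_subset_closedBall hz)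
      have h' : ((Real.nnabs (W x * K) : NNReal) : ℝ) = W x * K := by
        rw [Real.coe_nnabs, abs_of_nonneg (mul_nonneg (hW0 x) hK0)]
      rw [h', mul_assoc]
      exact mul_le_mul_of_nonneg_left h (hW0 x))
    (integrable_of_cont (hW.mul continuous_const))
    (by
      filter_upwards [hd] with x hx1
      have := (hx1.hasFDerivAt.const_mul (W x)).smul_const (x : E n)
      refine this.congr_fderiv ?_
      ext v i
      simp [ContinuousLinearMap.smulRight_apply]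
      ring)
  refine ⟨_, hint.2, fun A => ?_⟩
  rw [← Tr_apply, ← ContinuousLinearMap.integral_comp_comm (Tr A) hint.1]
  refine integral_mono_ae ?_ (integrable_of_cont (hW.mul (continuous_gnorm_act (G p) A))) ?_
  · exact (Tr A).integrable_comp hint.1
  · filter_upwards [hd] with x hx1
    show Tr A ((fderiv ℝ (F x) p).smulRight (W x • (x : E n))) ≤ _
    have e : (fderiv ℝ (F x) p).smulRight (W x • (x : E n)) =
        W x • (fderiv ℝ (F x) p).smulRight (x : E n) := by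
      ext v i
      simp [ContinuousLinearMap.smulRight_apply]
      ring
    rw [e, map_smul, smul_eq_mul, Tr_smulRight]
    exact mul_le_mul_of_nonneg_left (fderiv_le hloc hpU hx1 _) (hW0 x)

theorem act_smul {n : ℕ} (A : Matrix (Fin n) (Fin n) ℝ) (t : ℝ) (v : E n) :
    act A (t • v) = t • act A v := by
  ext i
  simp only [act, PiLp.smul_apply, smul_eq_mul, Finset.mul_sum]
  exact Finset.sum_congr rfl fun j _ => by ring

theorem act_mul {n : ℕ} (A B : Matrix (Fin n) (Fin n) ℝ) (v : E n) :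
    act (A * B) v = act A (act B v) := by
  ext i
  simp only [act, Matrix.mul_apply, Finset.mul_sum, Finset.sum_mul]
  rw [Finset.sum_comm]
  exact Finset.sum_congr rfl fun j _ => Finset.sum_congr rfl fun k _ => by ring

theorem gnorm_act' {n : ℕ} (G A : Matrix (Fin n) (Fin n) ℝ) (h : A.transpose * G * A = 1)
    (v : E n) : gnorm G (act A v) = ‖v‖ := by
  by_cases hv : v = 0
  · subst hv
    simp [gnorm, act]
  · have hn : ‖v‖ ≠ 0 := norm_ne_zero_iff.2 hv
    have hu : ‖‖v‖⁻¹ • v‖ = 1 := by rw [norm_smul, norm_inv, norm_norm, inv_mul_cancel₀ hn]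
    have h1 := Pool.Agent.H241R3.FV.gnorm_act G A h ⟨‖v‖⁻¹ • v, by simpa using hu⟩
    have h2 : v = ‖v‖ • (‖v‖⁻¹ • v) := by rw [smul_smul, mul_inv_cancel₀ hn, one_smul]
    conv_lhs => rw [h2]
    rw [act_smul, gnorm_smul, h1, mul_one, abs_of_nonneg (norm_nonneg v)]

/-- the square root of `1 - x xᵀ` -/
noncomputable def Gam (x : E 2) : Matrix (Fin 2) (Fin 2) ℝ :=
  fun i j => (if i = j then 1 else 0) - x i * x j / (1 + √(1 - ‖x‖ ^ 2))

theorem norm_two (x : E 2) : ‖x‖ ^ 2 = x 0 ^ 2 + x 1 ^ 2 := by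
  rw [EuclideanSpace.norm_sq_eq, Fin.sum_univ_two]
  simp

theorem det_Gam {x : E 2} (hx : ‖x‖ < 1) : (Gam x).det = √(1 - ‖x‖ ^ 2) := by
  have h0 : 0 ≤ 1 - ‖x‖ ^ 2 := by nlinarith [norm_nonneg x]
  have hc : √(1 - ‖x‖ ^ 2) ^ 2 = 1 - ‖x‖ ^ 2 := Real.sq_sqrt h0
  have hcp : 0 ≤ √(1 - ‖x‖ ^ 2) := Real.sqrt_nonneg _
  rw [Matrix.det_fin_two]
  simp only [Gam]
  set c := √(1 - ‖x‖ ^ 2) with hcd
  have hn := norm_two x
  have h1 : 1 + c ≠ 0 := by positivity
  have hx2 : x 0 ^ 2 + x 1 ^ 2 = (1 - c) * (1 + c) := by nlinarith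
  simp only [if_true, Fin.isValue, zero_ne_one, if_false, one_ne_zero]
  field_simp
  linear_combination (-(1 + c)) * hx2

theorem norm_Gam {x : E 2} (hx : ‖x‖ < 1) (θ : Sph 2) :
    ‖act (Gam x) (θ : E 2)‖ = DD x (θ : E 2) := by
  have h0 : 0 ≤ 1 - ‖x‖ ^ 2 := by nlinarith [norm_nonneg x]
  have hc : √(1 - ‖x‖ ^ 2) ^ 2 = 1 - ‖x‖ ^ 2 := Real.sq_sqrt h0
  have hcp : 0 ≤ √(1 - ‖x‖ ^ 2) := Real.sqrt_nonneg _
  rw [DD, ← Real.sqrt_sq (norm_nonneg (act (Gam x) (θ : E 2)))]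
  congr 1
  rw [norm_two]
  have hθ : (θ : E 2) 0 ^ 2 + (θ : E 2) 1 ^ 2 = 1 := by
    rw [← norm_two]
    have : ‖(θ : E 2)‖ = 1 := by simpa using θ.2
    rw [this]; norm_num
  have hin : (inner ℝ x (θ : E 2) : ℝ) = x 0 * (θ : E 2) 0 + x 1 * (θ : E 2) 1 := by
    simp [PiLp.inner_apply, Fin.sum_univ_two]
    ring
  rw [hin]
  simp only [act, Gam, Fin.sum_univ_two, Fin.isValue, if_true, zero_ne_one, if_false, one_ne_zero]
  set c := √(1 - ‖x‖ ^ 2) with hcd
  have hn := norm_two x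
  have h1 : 1 + c ≠ 0 := by positivity
  have hx2 : x 0 ^ 2 + x 1 ^ 2 = (1 - c) * (1 + c) := by nlinarith
  set a := x 0
  set b := x 1
  set s := (θ : E 2) 0
  set t := (θ : E 2) 1
  have e : ((1 - a * a / (1 + c)) * s + (0 - a * b / (1 + c)) * t) ^ 2 +
      ((0 - b * a / (1 + c)) * s + (1 - b * b / (1 + c)) * t) ^ 2 =
      (s ^ 2 + t ^ 2) - 2 * (a * s + b * t) ^ 2 / (1 + c) +
        (a ^ 2 + b ^ 2) * (a * s + b * t) ^ 2 / (1 + c) ^ 2 := by
    field_simp
    ring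
  rw [e, hx2, hθ]
  field_simp
  ring

/-- `∫ DD^(-2) = 2π / √(1 - |x|²)` -/
theorem int_DD2 {x : E 2} (hx : ‖x‖ < 1) :
    √(1 - ‖x‖ ^ 2) * ∫ θ : Sph 2, (DD x (θ : E 2) ^ 2)⁻¹ ∂(sig 2) = 2 * Real.pi := by
  obtain ⟨e, e', he, hxe⟩ := Pool.Agent.L7h22.FA.exists_ON x
  have h0 := norm_nonneg x
  set r := ‖x‖ with hr
  have hcont : Continuous (fun θ : Sph 2 => (DD x (θ : E 2) ^ 2)⁻¹) :=
    ((Pool.Agent.L7h22.FA.DD_cont x).pow 2).inv₀
      (fun θ => (pow_pos (Pool.Agent.L7h22.FA.DD_pos (by rw [← hr]; exact hx) θ) 2).ne')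
  obtain ⟨hp1, hp2, hp3⟩ := Pool.Agent.L7h22.FA.s_PAR e e' he r h0 hx
  rw [hp2 _ hcont, ← intervalIntegral.integral_const_mul]
  have hc := Pool.Agent.L7h22.FA.c_pos h0 hx
  have hcs := Pool.Agent.L7h22.FA.c_sq h0 hx
  have h2 : ∀ w : ℝ, √(1 - r ^ 2) * ((DD x (pt (Th e e' r w) : E 2) ^ 2)⁻¹ * rho r w) = 1 := by
    intro w
    have hD := Pool.Agent.L7h22.FA.den_pos h0 hx w
    have hDq : √(1 - r ^ 2 * Real.sin w ^ 2) ^ 2 = 1 - r ^ 2 * Real.sin w ^ 2 :=
      Real.sq_sqrt hD.le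
    rw [Pool.Agent.L7h22.FA.pt_coe (hp1 w), hxe, Pool.Agent.L7h22.FA.DD_Th he h0 hx]
    unfold rho
    rw [div_pow, hDq]
    set c := √(1 - r ^ 2)
    have h5 := hD.ne'
    field_simp
  rw [intervalIntegral.integral_congr (g := fun _ => (1 : ℝ)) (fun w _ => h2 w)]
  simp

theorem det_neg (L : E 2 →L[ℝ] E 2) : |(-L).det| = |L.det| := by
  have h1 : (-L).det = (-1) ^ 2 * L.det := by
    have h2 : (-L : E 2 →L[ℝ] E 2) = (-1 : ℝ) • L := by
      ext v k
      simp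
    show LinearMap.det ((-L : E 2 →L[ℝ] E 2) : E 2 →ₗ[ℝ] E 2) = _
    rw [h2]
    show LinearMap.det ((-1 : ℝ) • (L : E 2 →ₗ[ℝ] E 2)) = _
    rw [LinearMap.det_smul]
    simp
  rw [h1]
  norm_num

theorem s_DQ : S_DQ := by
  intro M _ bd hNS C
  obtain ⟨fa, fb, fc⟩ := Pool.Agent.H241R3.FV.taskExt 2 (by norm_num) M bd hNS
  have hloc := Pool.Agent.H241R3.FV.TLoc.taskLoc 2 M C
  have hw := wdiff C.isOpen_U (G := C.G) (F := fun θ p => ext bd θ (C.map p)) (by
        intro p hp ε hε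
        obtain ⟨r, hr, hr2, hr3⟩ := hloc p hp ε hε
        exact ⟨r, hr, hr2, fun x y hy z hz => (fa x _ _).trans (hr3 y hy z hz)⟩)
      (fun x x' p _ => fb x x' _)
  filter_upwards [hw] with p hp hpU x hx
  have hx2 : 0 < 1 - ‖x‖ ^ 2 := by nlinarith [norm_nonneg x]
  have hcp : 0 < √(1 - ‖x‖ ^ 2) := Real.sqrt_pos.2 hx2
  have hcs : √(1 - ‖x‖ ^ 2) ^ 2 = 1 - ‖x‖ ^ 2 := Real.sq_sqrt hx2.le
  have hDD : ∀ θ : Sph 2, 0 < DD x (θ : E 2) := Pool.Agent.L7h22.FA.DD_pos hx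
  set W : Sph 2 → ℝ := fun θ => (1 - ‖x‖ ^ 2) * (DD x (θ : E 2) ^ 3)⁻¹ with hWd
  have hWc : Continuous W := continuous_const.mul
    (((Pool.Agent.L7h22.FA.DD_cont x).pow 3).inv₀ (fun θ => (pow_pos (hDD θ) 3).ne'))
  have hW0 : ∀ θ, 0 ≤ W θ := fun θ => by
    have := hDD θ
    positivity
  obtain ⟨L, hL1, hL2⟩ := hp hpU W hWc hW0
  obtain ⟨g1, g2, g3⟩ := s_FF M bd hNS
  refine ⟨-L, ?_, ?_⟩
  · have e : (fun p' => T (FF bd (C.map p')) x) = fun p' =>
        T (fun _ => Real.pi / 2) x - ∫ θ : Sph 2, (W θ * ext bd θ (C.map p')) • (θ : E 2) ∂(sig 2) := by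
      funext p'
      have h1 := Pool.Agent.L7h22.FA.T_sub (F := FF bd (C.map p')) (F' := fun _ => Real.pi / 2)
        (Pool.Agent.L7h22.FA.lip_cont (g1 _)) continuous_const hx
      have h2 : (1 - ‖x‖ ^ 2) • ∫ θ : Sph 2, ((FF bd (C.map p') θ - Real.pi / 2) *
          (DD x (θ : E 2) ^ 3)⁻¹) • (θ : E 2) ∂(sig 2) =
          -∫ θ : Sph 2, (W θ * ext bd θ (C.map p')) • (θ : E 2) ∂(sig 2) := by
        rw [← integral_smul, ← integral_neg]
        congr 1
        funext θ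
        rw [smul_smul, ← neg_smul]
        congr 1
        simp only [FF, hWd]
        ring
      rw [h2] at h1
      rw [← sub_add_cancel (T (FF bd (C.map p')) x) (T (fun _ => Real.pi / 2) x), h1]
      abel
    rw [e]
    have := (hasFDerivAt_const (T (fun _ => Real.pi / 2) x) p).sub hL1
    rwa [zero_sub] at this
  · rw [det_neg, Pool.Agent.H241R3.FV.det_mat]
    have key := Pool.Agent.H241R3.FV.TMat.taskMat 2 (by norm_num) (Gam x * mat L) (C.G p)
      (C.pos_G p hpU) (Real.pi * √(1 - ‖x‖ ^ 2)) (by positivity) (by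
        intro A hA
        have e1 : (Gam x * mat L * A).trace = (mat L * (A * Gam x)).trace := by
          rw [Matrix.mul_assoc, Matrix.trace_mul_comm, Matrix.mul_assoc]
        rw [e1]
        refine (hL2 (A * Gam x)).trans ?_
        have e2 : (fun θ : Sph 2 => W θ * gnorm (C.G p) (act (A * Gam x) (θ : E 2))) =
            fun θ : Sph 2 => (1 - ‖x‖ ^ 2) * (DD x (θ : E 2) ^ 2)⁻¹ := by
          funext θ
          rw [act_mul, gnorm_act' _ _ hA, norm_Gam hx]
          have := (hDD θ).ne'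
          simp only [hWd]
          field_simp
        rw [e2, integral_const_mul]
        have h3 := int_DD2 hx
        push_cast
        calc (1 - ‖x‖ ^ 2) * ∫ θ : Sph 2, (DD x (θ : E 2) ^ 2)⁻¹ ∂(sig 2) =
            √(1 - ‖x‖ ^ 2) ^ 2 * ∫ θ : Sph 2, (DD x (θ : E 2) ^ 2)⁻¹ ∂(sig 2) := by rw [hcs]
          _ = √(1 - ‖x‖ ^ 2) * (√(1 - ‖x‖ ^ 2) *
            ∫ θ : Sph 2, (DD x (θ : E 2) ^ 2)⁻¹ ∂(sig 2)) := by ring
          _ = √(1 - ‖x‖ ^ 2) * (2 * Real.pi) := by rw [h3]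
          _ ≤ _ := by linarith)
    rw [Matrix.det_mul, abs_mul, det_Gam hx, abs_of_pos hcp, mul_pow, hcs] at key
    have h4 : √(1 - ‖x‖ ^ 2) * |(mat L).det| ≤
        √(1 - ‖x‖ ^ 2) * (Real.pi ^ 2 * √(1 - ‖x‖ ^ 2) * √(C.G p).det) := by
      refine key.trans (le_of_eq ?_)
      calc Real.pi ^ 2 * (1 - ‖x‖ ^ 2) * √(C.G p).det =
          Real.pi ^ 2 * √(1 - ‖x‖ ^ 2) ^ 2 * √(C.G p).det := by rw [hcs]
        _ = _ := by ring
    exact le_of_mul_le_mul_left h4 hcp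

end DQ

theorem s_DQ : S_DQ := DQ.s_DQ

end Pool.Agent.L7h77.FA
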