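import Pool.Agent.L7h77.FA.Stm
import Pool.Agent.H241R3.FV.TExt

/-! Project FA: S_FF. -/

set_option autoImplicit false

open MeasureTheory Metric Set Filter Topology InnerProductGeometry

namespace Pool.Agent.L7h77.FA

open Pool.Agent.H241R3.FV (E Sph sig ext gnorm act mat RChart Fill)

theorem s_FF : S_FF := by
  intro M _ bd hNS
  obtain ⟨h1, h2, h3⟩ := Pool.Agent.H241R3.FV.taskExt 2 (by norm_num) M bd hNS
  refine ⟨fun q θ θ' => ?_, fun q q' θ => ?_, fun p θ => ?_⟩
  · have := h2 θ' θ q
    rw [show FF bd q θ - FF bd q θ' = ext bd θ' q - ext bd θ q by simp only [FF]; ring,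
      angle_comm]
    exact this
  · have := h1 θ q' q
    rw [show FF bd q θ - FF bd q' θ = ext bd θ q' - ext bd θ q by simp only [FF]; ring, dist_comm]
    exact this
  · have hp : ‖(p : E 2)‖ = 1 := by simpa using p.2
    have hθ : ‖(θ : E 2)‖ = 1 := by simpa using θ.2
    simp only [FF]
    rw [h3, angle, hp, hθ, mul_one, div_one, Real.arccos, real_inner_comm]
    ring

end Pool.Agent.L7h77.FA
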