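import Pool.Agent.L7h77.FA.Stm

/-! Project FA: numerical certificates for the integrals of `S_N1`. -/

set_option autoImplicit false
set_option linter.unusedVariables false

open MeasureTheory Set

namespace Pool.Agent.L7h77.FA.NM

open Pool.Agent.L7h77.FA (kk)

/-- radius of the circle of lattice points -/
def NN : ℤ := 32045

def cA (z1 z2 z3 : ℤ × ℤ) : ℤ :=
  z1.1 * z2.2 * z3.2 + z1.2 * z2.1 * z3.2 + z1.2 * z2.2 * z3.1 - z1.1 * z2.1 * z3.1
def cM (z1 z2 z3 : ℤ × ℤ) : ℤ :=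
  z1.1 * z2.2 * z3.2 + z1.2 * z2.1 * z3.2 + z1.2 * z2.2 * z3.1 + 3 * (z1.1 * z2.1 * z3.1)
def cB (z1 z2 z3 : ℤ × ℤ) : ℤ :=
  z1.2 * z2.2 * z3.2 - (z1.2 * z2.1 * z3.1 + z1.1 * z2.2 * z3.1 + z1.1 * z2.1 * z3.2)
def cL (z1 z2 z3 : ℤ × ℤ) : ℤ :=
  -3 * (z1.2 * z2.2 * z3.2) - (z1.2 * z2.1 * z3.1 + z1.1 * z2.2 * z3.1 + z1.1 * z2.1 * z3.2)

def Ki (A B M L : ℤ) (p : ℤ × ℤ) : ℤ :=
  -A * (4 * p.1 ^ 3 - 3 * p.1 * NN ^ 2) - B * (3 * p.2 * NN ^ 2 - 4 * p.2 ^ 3) -
    3 * M * p.1 * NN ^ 2 + 3 * L * p.2 * NN ^ 2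

def sgn (z p : ℤ × ℤ) : ℤ := if p.1 ≤ z.1 then 1 else -1

def kap (σ : ℤ) (p p' : ℤ × ℤ) : ℤ :=
  if σ = 1 then 10000 * NN / (NN + min p.2 p'.2) + 1 else 10000 * NN / (NN - max p.2 p'.2) + 1

/-- lattice points of the upper half circle -/
def OnC (p : ℤ × ℤ) : Prop := 0 ≤ p.2 ∧ p.1 ^ 2 + p.2 ^ 2 = NN ^ 2

instance (p : ℤ × ℤ) : Decidable (OnC p) := by unfold OnC; infer_instance

def sig3 (z1 z2 z3 p : ℤ × ℤ) : ℤ := sgn z1 p * sgn z2 p * sgn z3 p

def Okp (z1 z2 z3 p p' : ℤ × ℤ) : Prop :=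
  p'.1 ≤ p.1 ∧ OnC p ∧ OnC p' ∧
  (sig3 z1 z2 z3 p = 1 ∨ ((0 ≤ p'.1 ∨ p.1 ≤ 0) ∧ max p.2 p'.2 < NN)) ∧
  (p.1 ≤ z1.1 ∨ z1.1 ≤ p'.1) ∧ (p.1 ≤ z2.1 ∨ z2.1 ≤ p'.1) ∧ (p.1 ≤ z3.1 ∨ z3.1 ≤ p'.1)

instance (z1 z2 z3 p p' : ℤ × ℤ) : Decidable (Okp z1 z2 z3 p p') := by unfold Okp; infer_instance

def term (z1 z2 z3 : ℤ × ℤ) (A B M L : ℤ) (p p' : ℤ × ℤ) : ℤ :=
  kap (sig3 z1 z2 z3 p) p p' * (sig3 z1 z2 z3 p * (Ki A B M L p' - Ki A B M L p))

def go (z1 z2 z3 : ℤ × ℤ) (A B M L : ℤ) : ℤ × ℤ → List (ℤ × ℤ) → ℤ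
  | _, [] => 0
  | p, p' :: t => term z1 z2 z3 A B M L p p' + go z1 z2 z3 A B M L p' t

def ok (z1 z2 z3 : ℤ × ℤ) : ℤ × ℤ → List (ℤ × ℤ) → Bool
  | _, [] => true
  | p, p' :: t => decide (Okp z1 z2 z3 p p') && ok z1 z2 z3 p' t

def lst : ℤ × ℤ → List (ℤ × ℤ) → ℤ × ℤ
  | p, [] => p
  | _, p' :: t => lst p' t

def pts : List (ℤ × ℤ) := [
  (32037, 716), (32016, 1363), (31964, 2277), (31955, 2400), (31900, 3045), (31824, 3757),
  (31800, 3955), (31668, 4901), (31603, 5304), (31323, 6764), (31212, 7259), (31117, 7656),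
  (31059, 7888), (30956, 8283), (30875, 8580), (30821, 8772), (30420, 10075), (30381, 10192),
  (29920, 11475), (29848, 11661), (29580, 12325), (29325, 12920), (29029, 13572), (28275, 15080),
  (27931, 15708), (27813, 15916), (27608, 16269), (27347, 16704), (27132, 17051), (27004, 17253),
  (26312, 18291), (25636, 19227), (25389, 19552), (25200, 19795), (24795, 20300), (24205, 21000),
  (24124, 21093), (23693, 21576), (23205, 22100), (23067, 22244), (22244, 23067), (22100, 23205),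
  (21576, 23693), (21093, 24124), (21000, 24205), (20300, 24795), (19795, 25200), (19552, 25389),
  (19227, 25636), (18291, 26312), (17253, 27004), (17051, 27132), (16704, 27347), (16269, 27608),
  (15916, 27813), (15708, 27931), (15080, 28275), (13572, 29029), (12920, 29325), (12325, 29580),
  (11661, 29848), (11475, 29920), (10192, 30381), (10075, 30420), (8772, 30821), (8580, 30875),
  (8283, 30956), (7888, 31059), (7656, 31117), (7259, 31212), (6764, 31323), (5304, 31603),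
  (4901, 31668), (3955, 31800), (3757, 31824), (3045, 31900), (2400, 31955), (2277, 31964),
  (1363, 32016), (716, 32037), (0, 32045), (-716, 32037), (-1363, 32016), (-2277, 31964),
  (-2400, 31955), (-3045, 31900), (-3757, 31824), (-3955, 31800), (-4901, 31668), (-5304, 31603),
  (-6764, 31323), (-7259, 31212), (-7656, 31117), (-7888, 31059), (-8283, 30956), (-8580, 30875),
  (-8772, 30821), (-10075, 30420), (-10192, 30381), (-11475, 29920), (-11661, 29848),
  (-12325, 29580), (-12920, 29325), (-13572, 29029), (-15080, 28275), (-15708, 27931),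
  (-15916, 27813), (-16269, 27608), (-16704, 27347), (-17051, 27132), (-17253, 27004),
  (-18291, 26312), (-19227, 25636), (-19552, 25389), (-19795, 25200), (-20300, 24795),
  (-21000, 24205), (-21093, 24124), (-21576, 23693), (-22100, 23205), (-22244, 23067),
  (-23067, 22244), (-23205, 22100), (-23693, 21576), (-24124, 21093), (-24205, 21000),
  (-24795, 20300), (-25200, 19795), (-25389, 19552), (-25636, 19227), (-26312, 18291),
  (-27004, 17253), (-27132, 17051), (-27347, 16704), (-27608, 16269), (-27813, 15916),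
  (-27931, 15708), (-28275, 15080), (-29029, 13572), (-29325, 12920), (-29580, 12325),
  (-29848, 11661), (-29920, 11475), (-30381, 10192), (-30420, 10075), (-30821, 8772),
  (-30875, 8580), (-30956, 8283), (-31059, 7888), (-31117, 7656), (-31212, 7259), (-31323, 6764),
  (-31603, 5304), (-31668, 4901), (-31800, 3955), (-31824, 3757), (-31900, 3045), (-31955, 2400),
  (-31964, 2277), (-32016, 1363), (-32037, 716), (-32045, 0)]

/-- the certificate: all conditions and the total at most `β / 100000` -/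
def cert (z1 z2 z3 : ℤ × ℤ) (β : ℤ) : Bool :=
  decide (OnC z1 ∧ OnC z2 ∧ OnC z3) && ok z1 z2 z3 (NN, 0) pts &&
    decide (lst (NN, 0) pts = (-NN, 0)) &&
    decide (10 * go z1 z2 z3 (cA z1 z2 z3) (cB z1 z2 z3) (cM z1 z2 z3) (cL z1 z2 z3) (NN, 0) pts ≤
      3 * β * NN ^ 6)

theorem cert1 : cert (32045, 0) (0, 32045) (0, 32045) 172998 = true := by decide +kernel
theorem cert2 : cert (31603, 5304) (-8772, 30821) (-10192, 30381) 174641 = true := by
  decide +kernel
theorem cert3 : cert (30381, 10192) (-15080, 28275) (-19795, 25200) 178361 = true := by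
  decide +kernel
theorem cert4 : cert (29029, 13572) (-19795, 25200) (-26312, 18291) 181954 = true := by
  decide +kernel
theorem cert5 : cert (27608, 16269) (-22244, 23067) (-30381, 10192) 184112 = true := by
  decide +kernel
theorem cert6 : cert (25636, 19227) (-24205, 21000) (-31824, 3757) 185049 = true := by
  decide +kernel

end Pool.Agent.L7h77.FA.NM
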