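import Pool.Agent.L7h77.FA.Num

/-! Project FA: from the certificates to the integrals of `S_N1`. -/

set_option autoImplicit false
set_option linter.unusedVariables false

open MeasureTheory Set

namespace Pool.Agent.L7h77.FA.NM

open Pool.Agent.L7h77.FA (kk)

/-- the integrand -/
noncomputable def gg (r : ℝ) (k : ℝ → ℝ) (w : ℝ) : ℝ :=
  (|k w| - r * Real.sin w * k w) / (1 - r ^ 2 * Real.sin w ^ 2)

theorem pw_pos {r s k κ : ℝ} (hr : 0 ≤ r) (hr1 : r < 1) (hs : 0 ≤ s) (hs1 : s ≤ 1) (hk : 0 ≤ k)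
    (h : 1 ≤ κ * (1 + s)) :
    (|k| - r * s * k) / (1 - r ^ 2 * s ^ 2) ≤ 2 / (1 + r) * (κ * k) := by
  have hrs : r * s < 1 := by nlinarith
  have hrs0 : 0 ≤ r * s := mul_nonneg hr hs
  have h1 : 0 < 1 - r ^ 2 * s ^ 2 := by nlinarith
  have hp : 0 < 1 + s := by linarith
  have h2 : 1 + r ≤ 2 * κ * (1 + r * s) := by
    have h3 : (1 + r) * (1 + s) ≤ 2 * (1 + r * s) := by nlinarith
    have h4 : 2 * (1 + r * s) * 1 ≤ 2 * (1 + r * s) * (κ * (1 + s)) :=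
      mul_le_mul_of_nonneg_left h (by positivity)
    have h5 : (1 + r) * (1 + s) ≤ (2 * κ * (1 + r * s)) * (1 + s) := by linarith
    exact le_of_mul_le_mul_right h5 hp
  rw [abs_of_nonneg hk, div_le_iff₀ h1, div_mul_eq_mul_div, div_mul_eq_mul_div,
    le_div_iff₀ (by linarith)]
  have h6 : 0 ≤ k * (1 - r * s) := mul_nonneg hk (by linarith)
  have h7 := mul_le_mul_of_nonneg_left h2 h6
  nlinarith [h7]

theorem pw_neg {r s k κ : ℝ} (hr : 0 ≤ r) (hr1 : r < 1) (hs : 0 ≤ s) (hs1 : s < 1) (hk : k ≤ 0)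
    (h : 1 ≤ κ * (1 - s)) :
    (|k| - r * s * k) / (1 - r ^ 2 * s ^ 2) ≤ 2 / (1 + r) * (κ * (-k)) := by
  have hrs : r * s < 1 := by nlinarith
  have hrs0 : 0 ≤ r * s := mul_nonneg hr hs
  have h1 : 0 < 1 - r ^ 2 * s ^ 2 := by nlinarith
  have hp : 0 < 1 - s := by linarith
  have h2 : 1 + r ≤ 2 * κ * (1 - r * s) := by
    have h3 : (1 + r) * (1 - s) ≤ 2 * (1 - r * s) := by nlinarith
    have h4 : 2 * (1 - r * s) * 1 ≤ 2 * (1 - r * s) * (κ * (1 - s)) :=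
      mul_le_mul_of_nonneg_left h (by nlinarith)
    have h5 : (1 + r) * (1 - s) ≤ (2 * κ * (1 - r * s)) * (1 - s) := by linarith
    exact le_of_mul_le_mul_right h5 hp
  rw [abs_of_nonpos hk, div_le_iff₀ h1, div_mul_eq_mul_div, div_mul_eq_mul_div,
    le_div_iff₀ (by linarith)]
  have h6 : 0 ≤ (-k) * (1 + r * s) := mul_nonneg (by linarith) (by linarith)
  have h7 := mul_le_mul_of_nonneg_left h2 h6
  nlinarith [h7]

/-- the angle of a lattice point -/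
noncomputable def ang (p : ℤ × ℤ) : ℝ := Real.arccos ((p.1 : ℝ) / NN)

theorem NN_pos : (0 : ℝ) < (NN : ℝ) := by norm_num [NN]

theorem onC_real {p : ℤ × ℤ} (h : OnC p) : (0 : ℝ) ≤ p.2 ∧ ((p.1 : ℝ) / NN) ^ 2 + ((p.2 : ℝ) / NN) ^ 2 = 1 := by
  obtain ⟨h1, h2⟩ := h
  refine ⟨by exact_mod_cast h1, ?_⟩
  have h3 : ((p.1 : ℝ)) ^ 2 + (p.2 : ℝ) ^ 2 = (NN : ℝ) ^ 2 := by exact_mod_cast h2
  have := NN_pos
  field_simp
  linarith

theorem cos_ang {p : ℤ × ℤ} (h : OnC p) : Real.cos (ang p) = (p.1 : ℝ) / NN := by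
  obtain ⟨h1, h2⟩ := onC_real h
  refine Real.cos_arccos ?_ ?_
  · nlinarith [sq_nonneg ((p.2 : ℝ) / NN)]
  · nlinarith [sq_nonneg ((p.2 : ℝ) / NN)]

theorem sin_ang {p : ℤ × ℤ} (h : OnC p) : Real.sin (ang p) = (p.2 : ℝ) / NN := by
  obtain ⟨h1, h2⟩ := onC_real h
  rw [ang, Real.sin_arccos, show 1 - ((p.1 : ℝ) / NN) ^ 2 = ((p.2 : ℝ) / NN) ^ 2 by linarith]
  exact Real.sqrt_sq (div_nonneg h1 NN_pos.le)

theorem ang_nonneg (p : ℤ × ℤ) : 0 ≤ ang p := Real.arccos_nonneg _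
theorem ang_le_pi (p : ℤ × ℤ) : ang p ≤ Real.pi := Real.arccos_le_pi _

theorem ang_mono {p p' : ℤ × ℤ} (h : p'.1 ≤ p.1) : ang p ≤ ang p' := by
  refine Real.arccos_le_arccos ?_
  have : (p'.1 : ℝ) ≤ p.1 := by exact_mod_cast h
  gcongr
  exact NN_pos.le

/-- the coefficients -/
noncomputable def rc (A : ℤ) : ℝ := (A : ℝ) / (NN : ℝ) ^ 3

theorem kk_factor (z1 z2 z3 : ℤ × ℤ) (h1 : OnC z1) (h2 : OnC z2) (h3 : OnC z3) (w : ℝ) :
    kk (rc (cA z1 z2 z3)) (rc (cB z1 z2 z3)) (rc (cM z1 z2 z3)) (rc (cL z1 z2 z3)) w =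
      4 * (Real.sin (w - ang z1) * Real.sin (w - ang z2) * Real.sin (w - ang z3)) := by
  have hN := NN_pos
  have hsc := Real.sin_sq_add_cos_sq w
  rw [Real.sin_sub, Real.sin_sub, Real.sin_sub, cos_ang h1, cos_ang h2, cos_ang h3, sin_ang h1,
    sin_ang h2, sin_ang h3, kk, Real.sin_three_mul, Real.cos_three_mul]
  simp only [rc, cA, cB, cM, cL]
  push_cast
  set s := Real.sin w
  set c := Real.cos w
  have hNe : (NN : ℝ) ≠ 0 := hN.ne'
  set a1 : ℝ := (z1.1 : ℝ) / NN with ha1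
  set a2 : ℝ := (z2.1 : ℝ) / NN with ha2
  set a3 : ℝ := (z3.1 : ℝ) / NN with ha3
  set b1 : ℝ := (z1.2 : ℝ) / NN with hb1
  set b2 : ℝ := (z2.2 : ℝ) / NN with hb2
  set b3 : ℝ := (z3.2 : ℝ) / NN with hb3
  have e1 : (z1.1 : ℝ) = a1 * NN := by rw [ha1]; field_simp
  have e2 : (z2.1 : ℝ) = a2 * NN := by rw [ha2]; field_simp
  have e3 : (z3.1 : ℝ) = a3 * NN := by rw [ha3]; field_simp
  have f1 : (z1.2 : ℝ) = b1 * NN := by rw [hb1]; field_simp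
  have f2 : (z2.2 : ℝ) = b2 * NN := by rw [hb2]; field_simp
  have f3 : (z3.2 : ℝ) = b3 * NN := by rw [hb3]; field_simp
  rw [e1, e2, e3, f1, f2, f3]
  have g1 : (a1 * NN * (b2 * NN) * (b3 * NN) + b1 * NN * (a2 * NN) * (b3 * NN) +
      b1 * NN * (b2 * NN) * (a3 * NN) - a1 * NN * (a2 * NN) * (a3 * NN)) / (NN : ℝ) ^ 3 =
      a1 * b2 * b3 + b1 * a2 * b3 + b1 * b2 * a3 - a1 * a2 * a3 := by field_simp
  have g2 : (b1 * NN * (b2 * NN) * (b3 * NN) - (b1 * NN * (a2 * NN) * (a3 * NN) +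
      a1 * NN * (b2 * NN) * (a3 * NN) + a1 * NN * (a2 * NN) * (b3 * NN))) / (NN : ℝ) ^ 3 =
      b1 * b2 * b3 - (b1 * a2 * a3 + a1 * b2 * a3 + a1 * a2 * b3) := by field_simp
  have g3 : (a1 * NN * (b2 * NN) * (b3 * NN) + b1 * NN * (a2 * NN) * (b3 * NN) +
      b1 * NN * (b2 * NN) * (a3 * NN) + 3 * (a1 * NN * (a2 * NN) * (a3 * NN))) / (NN : ℝ) ^ 3 =
      a1 * b2 * b3 + b1 * a2 * b3 + b1 * b2 * a3 + 3 * (a1 * a2 * a3) := by field_simp
  have g4 : (-3 * (b1 * NN * (b2 * NN) * (b3 * NN)) - (b1 * NN * (a2 * NN) * (a3 * NN) +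
      a1 * NN * (b2 * NN) * (a3 * NN) + a1 * NN * (a2 * NN) * (b3 * NN))) / (NN : ℝ) ^ 3 =
      -3 * (b1 * b2 * b3) - (b1 * a2 * a3 + a1 * b2 * a3 + a1 * a2 * b3) := by field_simp
  rw [g1, g2, g3, g4]
  linear_combination (-1 : ℝ) * (3 * (a1 * b2 * b3 + b1 * a2 * b3 + b1 * b2 * a3 - a1 * a2 * a3) * s +
    3 * (b1 * b2 * b3 - (b1 * a2 * a3 + a1 * b2 * a3 + a1 * a2 * b3)) * c +
    (a1 * b2 * b3 + b1 * a2 * b3 + b1 * b2 * a3 + 3 * (a1 * a2 * a3)) * s +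
    (-3 * (b1 * b2 * b3) - (b1 * a2 * a3 + a1 * b2 * a3 + a1 * a2 * b3)) * c) * hsc

/-- the primitive -/
noncomputable def Kp (a b μ l w : ℝ) : ℝ :=
  -a * Real.cos (3 * w) / 3 - b * Real.sin (3 * w) / 3 - μ * Real.cos w + l * Real.sin w

theorem hasDerivAt_Kp (a b μ l w : ℝ) : HasDerivAt (Kp a b μ l) (kk a b μ l w) w := by
  have h3 : HasDerivAt (fun w : ℝ => 3 * w) 3 w := by simpa using (hasDerivAt_id w).const_mul 3
  have h := ((((h3.cos.const_mul (-a)).div_const 3).sub ((h3.sin.const_mul b).div_const 3)).sub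
    ((Real.hasDerivAt_cos w).const_mul μ)).add ((Real.hasDerivAt_sin w).const_mul l)
  refine h.congr_deriv ?_
  simp only [kk]
  ring

theorem Kp_ang {A B M L : ℤ} {p : ℤ × ℤ} (h : OnC p) :
    Kp (rc A) (rc B) (rc M) (rc L) (ang p) = (Ki A B M L p : ℝ) / (3 * (NN : ℝ) ^ 6) := by
  have hN := NN_pos
  rw [Kp, Real.cos_three_mul, Real.sin_three_mul, cos_ang h, sin_ang h]
  simp only [rc, Ki]
  push_cast
  field_simp

theorem cont_kk (a b μ l : ℝ) : Continuous (kk a b μ l) := by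
  unfold kk; fun_prop

theorem cont_gg {r : ℝ} (hr : 0 ≤ r) (hr1 : r < 1) {k : ℝ → ℝ} (hk : Continuous k) :
    Continuous (gg r k) := by
  unfold gg
  refine Continuous.div (by fun_prop) (by fun_prop) (fun w => ?_)
  have h1 : Real.sin w ^ 2 ≤ 1 := Real.sin_sq_le_one w
  have h2 : r ^ 2 < 1 := by nlinarith
  nlinarith [sq_nonneg (Real.sin w)]

/-- cosine between -/
theorem cos_mem {p p' : ℤ × ℤ} (h : OnC p) (h' : OnC p') {w : ℝ} (hw : w ∈ Icc (ang p) (ang p')) :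
    Real.cos w ≤ (p.1 : ℝ) / NN ∧ (p'.1 : ℝ) / NN ≤ Real.cos w ∧ 0 ≤ Real.sin w := by
  have h0 := ang_nonneg p
  have h1 := ang_le_pi p'
  refine ⟨?_, ?_, Real.sin_nonneg_of_nonneg_of_le_pi (h0.trans hw.1) (hw.2.trans h1)⟩
  · rw [← cos_ang h]
    exact Real.cos_le_cos_of_nonneg_of_le_pi h0 (hw.2.trans h1) hw.1
  · rw [← cos_ang h']
    exact Real.cos_le_cos_of_nonneg_of_le_pi (h0.trans hw.1) h1 hw.2

theorem sin_lower {p p' : ℤ × ℤ} (h : OnC p) (h' : OnC p') {w : ℝ}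
    (hw : w ∈ Icc (ang p) (ang p')) : ((min p.2 p'.2 : ℤ) : ℝ) / NN ≤ Real.sin w := by
  obtain ⟨h1, h2, h3⟩ := cos_mem h h' hw
  obtain ⟨a1, a2⟩ := onC_real h
  obtain ⟨b1, b2⟩ := onC_real h'
  have hs := Real.sin_sq_add_cos_sq w
  have hN := NN_pos
  have hm : ((min p.2 p'.2 : ℤ) : ℝ) = min (p.2 : ℝ) p'.2 := by push_cast; rfl
  rw [hm]
  refine abs_le_of_sq_le_sq' ?_ h3 |>.2
  rcases le_total 0 (Real.cos w) with hc | hc
  · have : Real.cos w ^ 2 ≤ ((p.1 : ℝ) / NN) ^ 2 := by nlinarith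
    have h5 : (min (p.2 : ℝ) p'.2 / NN) ^ 2 ≤ ((p.2 : ℝ) / NN) ^ 2 := by
      refine pow_le_pow_left₀ (div_nonneg (le_min a1 b1) hN.le) ?_ 2
      gcongr
      exact min_le_left _ _
    linarith
  · have : Real.cos w ^ 2 ≤ ((p'.1 : ℝ) / NN) ^ 2 := by nlinarith
    have h5 : (min (p.2 : ℝ) p'.2 / NN) ^ 2 ≤ ((p'.2 : ℝ) / NN) ^ 2 := by
      refine pow_le_pow_left₀ (div_nonneg (le_min a1 b1) hN.le) ?_ 2
      gcongr
      exact min_le_right _ _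
    linarith

theorem sin_upper {p p' : ℤ × ℤ} (h : OnC p) (h' : OnC p') (hq : 0 ≤ p'.1 ∨ p.1 ≤ 0) {w : ℝ}
    (hw : w ∈ Icc (ang p) (ang p')) : Real.sin w ≤ ((max p.2 p'.2 : ℤ) : ℝ) / NN := by
  obtain ⟨h1, h2, h3⟩ := cos_mem h h' hw
  obtain ⟨a1, a2⟩ := onC_real h
  obtain ⟨b1, b2⟩ := onC_real h'
  have hs := Real.sin_sq_add_cos_sq w
  have hN := NN_pos
  have hm : ((max p.2 p'.2 : ℤ) : ℝ) = max (p.2 : ℝ) p'.2 := by push_cast; rfl
  rw [hm]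
  have h0 : 0 ≤ max (p.2 : ℝ) p'.2 / NN := div_nonneg (le_max_of_le_left a1) hN.le
  refine abs_le_of_sq_le_sq' ?_ h0 |>.2
  rcases hq with hq | hq
  · have hq' : (0 : ℝ) ≤ (p'.1 : ℝ) / NN := div_nonneg (by exact_mod_cast hq) hN.le
    have : ((p'.1 : ℝ) / NN) ^ 2 ≤ Real.cos w ^ 2 := by nlinarith
    have h5 : ((p'.2 : ℝ) / NN) ^ 2 ≤ (max (p.2 : ℝ) p'.2 / NN) ^ 2 := by
      refine pow_le_pow_left₀ (div_nonneg b1 hN.le) ?_ 2
      gcongr
      exact le_max_right _ _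
    linarith
  · have hq' : (p.1 : ℝ) / NN ≤ 0 := div_nonpos_of_nonpos_of_nonneg (by exact_mod_cast hq) hN.le
    have : ((p.1 : ℝ) / NN) ^ 2 ≤ Real.cos w ^ 2 := by nlinarith
    have h5 : ((p.2 : ℝ) / NN) ^ 2 ≤ (max (p.2 : ℝ) p'.2 / NN) ^ 2 := by
      refine pow_le_pow_left₀ (div_nonneg a1 hN.le) ?_ 2
      gcongr
      exact le_max_left _ _
    linarith

/-- the sign of a factor -/
theorem sgn_factor {z p p' : ℤ × ℤ} (hz : OnC z) (h : OnC p) (h' : OnC p')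
    (hs : p.1 ≤ z.1 ∨ z.1 ≤ p'.1) {w : ℝ} (hw : w ∈ Icc (ang p) (ang p')) :
    0 ≤ (sgn z p : ℝ) * Real.sin (w - ang z) := by
  have h0 := ang_nonneg p
  have h1 := ang_le_pi p'
  have z0 := ang_nonneg z
  have z1 := ang_le_pi z
  unfold sgn
  split_ifs with hc
  · have := ang_mono hc
    push_cast
    rw [one_mul]
    exact Real.sin_nonneg_of_nonneg_of_le_pi (by linarith [hw.1]) (by linarith [hw.2])
  · have hc' : z.1 ≤ p'.1 := by tauto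
    have := ang_mono hc'
    push_cast
    have := Real.sin_nonpos_of_nonpos_of_neg_pi_le (x := w - ang z) (by linarith [hw.2])
      (by linarith [hw.1])
    linarith

theorem sgn_cases (z p : ℤ × ℤ) : sgn z p = 1 ∨ sgn z p = -1 := by
  unfold sgn; split_ifs <;> simp

theorem sig3_cases (z1 z2 z3 p : ℤ × ℤ) : sig3 z1 z2 z3 p = 1 ∨ sig3 z1 z2 z3 p = -1 := by
  unfold sig3
  rcases sgn_cases z1 p with h1 | h1 <;> rcases sgn_cases z2 p with h2 | h2 <;>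
    rcases sgn_cases z3 p with h3 | h3 <;> rw [h1, h2, h3] <;> norm_num

/-- the function of the certificate -/
noncomputable def kz (z1 z2 z3 : ℤ × ℤ) : ℝ → ℝ :=
  kk (rc (cA z1 z2 z3)) (rc (cB z1 z2 z3)) (rc (cM z1 z2 z3)) (rc (cL z1 z2 z3))

theorem kz_sign {z1 z2 z3 p p' : ℤ × ℤ} (h1 : OnC z1) (h2 : OnC z2) (h3 : OnC z3)
    (h : Okp z1 z2 z3 p p') {w : ℝ} (hw : w ∈ Icc (ang p) (ang p')) :
    0 ≤ (sig3 z1 z2 z3 p : ℝ) * kz z1 z2 z3 w := by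
  obtain ⟨_, hp, hp', _, s1, s2, s3⟩ := h
  rw [kz, kk_factor z1 z2 z3 h1 h2 h3 w, sig3]
  have e1 := sgn_factor h1 hp hp' s1 hw
  have e2 := sgn_factor h2 hp hp' s2 hw
  have e3 := sgn_factor h3 hp hp' s3 hw
  have := mul_nonneg (mul_nonneg e1 e2) e3
  push_cast
  nlinarith [this]

theorem kap_pos {p p' : ℤ × ℤ} (h : OnC p) (h' : OnC p') (σ : ℤ) (hσ : σ = 1) :
    1 ≤ (kap σ p p' : ℝ) / 10000 * (1 + ((min p.2 p'.2 : ℤ) : ℝ) / NN) := by
  have hN := NN_pos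
  rw [kap, if_pos hσ]
  set m : ℤ := min p.2 p'.2 with hm
  have hm0 : 0 ≤ m := le_min h.1 h'.1
  have hpos : 0 < NN + m := by have : (0 : ℤ) < NN := by norm_num [NN]
                               linarith
  have h1 : 10000 * NN < (10000 * NN / (NN + m) + 1) * (NN + m) :=
    Int.lt_ediv_add_one_mul_self _ hpos
  have h2 : (10000 : ℝ) * NN ≤ ((10000 * NN / (NN + m) + 1 : ℤ) : ℝ) * (NN + m) := by
    have := h1.le
    exact_mod_cast this
  rw [show (1 : ℝ) + (m : ℝ) / NN = (NN + m) / NN by field_simp, div_mul_div_comm, le_div_iff₀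
    (by positivity)]
  linarith

theorem kap_neg {p p' : ℤ × ℤ} (h : OnC p) (h' : OnC p') (σ : ℤ) (hσ : σ = -1)
    (hM : max p.2 p'.2 < NN) :
    1 ≤ (kap σ p p' : ℝ) / 10000 * (1 - ((max p.2 p'.2 : ℤ) : ℝ) / NN) := by
  have hN := NN_pos
  rw [kap, if_neg (by rw [hσ]; norm_num)]
  set m : ℤ := max p.2 p'.2 with hm
  have hpos : 0 < NN - m := by linarith
  have h1 : 10000 * NN < (10000 * NN / (NN - m) + 1) * (NN - m) :=
    Int.lt_ediv_add_one_mul_self _ hpos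
  have h2 : (10000 : ℝ) * NN ≤ ((10000 * NN / (NN - m) + 1 : ℤ) : ℝ) * (NN - m) := by
    have := h1.le
    exact_mod_cast this
  rw [show (1 : ℝ) - (m : ℝ) / NN = (NN - m) / NN by field_simp, div_mul_div_comm, le_div_iff₀
    (by positivity)]
  linarith

theorem gg_le {z1 z2 z3 p p' : ℤ × ℤ} (h1 : OnC z1) (h2 : OnC z2) (h3 : OnC z3)
    (h : Okp z1 z2 z3 p p') {r : ℝ} (hr : 0 ≤ r) (hr1 : r < 1) {w : ℝ}
    (hw : w ∈ Icc (ang p) (ang p')) :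
    gg r (kz z1 z2 z3) w ≤ 2 / (1 + r) * ((kap (sig3 z1 z2 z3 p) p p' : ℝ) / 10000 *
      ((sig3 z1 z2 z3 p : ℝ) * kz z1 z2 z3 w)) := by
  have hk := kz_sign h1 h2 h3 h hw
  obtain ⟨_, hp, hp', hcase, _, _, _⟩ := h
  obtain ⟨_, _, hs0⟩ := cos_mem hp hp' hw
  have hN := NN_pos
  rcases sig3_cases z1 z2 z3 p with hσ | hσ
  · rw [hσ] at hk ⊢
    push_cast at hk ⊢
    rw [one_mul] at hk ⊢
    have hl := sin_lower hp hp' hw
    have hκ := kap_pos hp hp' 1 rfl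
    refine pw_pos hr hr1 hs0 (Real.sin_le_one w) hk ?_
    have hκ0 : 0 ≤ (kap 1 p p' : ℝ) / 10000 := by
      by_contra hneg
      push Not at hneg
      have : 0 ≤ ((min p.2 p'.2 : ℤ) : ℝ) / NN :=
        div_nonneg (by exact_mod_cast le_min hp.1 hp'.1) hN.le
      nlinarith
    nlinarith
  · have hcase' : (0 ≤ p'.1 ∨ p.1 ≤ 0) ∧ max p.2 p'.2 < NN := by
      rcases hcase with hc | hc
      · rw [hσ] at hc; norm_num at hc
      · exact hc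
    have hu := sin_upper hp hp' hcase'.1 hw
    have hκ := kap_neg hp hp' (-1) rfl hcase'.2
    have hlt : ((max p.2 p'.2 : ℤ) : ℝ) / NN < 1 := by
      rw [div_lt_one hN]
      exact_mod_cast hcase'.2
    rw [hσ] at hk ⊢
    push_cast at hk ⊢
    have hk' : kz z1 z2 z3 w ≤ 0 := by linarith
    rw [show (-1 : ℝ) * kz z1 z2 z3 w = -kz z1 z2 z3 w by ring]
    refine pw_neg hr hr1 hs0 (lt_of_le_of_lt hu hlt) hk' ?_
    have hκ0 : 0 ≤ (kap (-1) p p' : ℝ) / 10000 := by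
      by_contra hneg
      push Not at hneg
      nlinarith
    nlinarith

theorem seg {z1 z2 z3 p p' : ℤ × ℤ} (h1 : OnC z1) (h2 : OnC z2) (h3 : OnC z3)
    (h : Okp z1 z2 z3 p p') {r : ℝ} (hr : 0 ≤ r) (hr1 : r < 1) :
    ∫ w in (ang p)..(ang p'), gg r (kz z1 z2 z3) w ≤
      2 / (1 + r) * ((term z1 z2 z3 (cA z1 z2 z3) (cB z1 z2 z3) (cM z1 z2 z3) (cL z1 z2 z3) p p' :
        ℤ) / (30000 * (NN : ℝ) ^ 6)) := by
  have hk : Continuous (kz z1 z2 z3) := cont_kk _ _ _ _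
  have hN := NN_pos
  have hle := intervalIntegral.integral_mono_on (ang_mono h.1)
    ((cont_gg hr hr1 hk).intervalIntegrable _ _)
    ((Continuous.intervalIntegrable (by fun_prop :
      Continuous (fun w => 2 / (1 + r) * ((kap (sig3 z1 z2 z3 p) p p' : ℝ) / 10000 *
      ((sig3 z1 z2 z3 p : ℝ) * kz z1 z2 z3 w)))) _ _) :
      IntervalIntegrable (fun w => 2 / (1 + r) * ((kap (sig3 z1 z2 z3 p) p p' : ℝ) / 10000 *
      ((sig3 z1 z2 z3 p : ℝ) * kz z1 z2 z3 w))) volume (ang p) (ang p'))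
    (fun w hw => gg_le h1 h2 h3 h hr hr1 hw)
  refine hle.trans (le_of_eq ?_)
  rw [intervalIntegral.integral_const_mul, intervalIntegral.integral_const_mul,
    intervalIntegral.integral_const_mul, kz,
    intervalIntegral.integral_eq_sub_of_hasDerivAt (fun w _ => hasDerivAt_Kp _ _ _ _ w)
      (hk.intervalIntegrable _ _), Kp_ang h.2.2.1, Kp_ang h.2.1, term]
  push_cast
  field_simp
  ring

theorem list_bound {z1 z2 z3 : ℤ × ℤ} (h1 : OnC z1) (h2 : OnC z2) (h3 : OnC z3) {r : ℝ}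
    (hr : 0 ≤ r) (hr1 : r < 1) : ∀ (l : List (ℤ × ℤ)) (p : ℤ × ℤ), ok z1 z2 z3 p l = true →
    ∫ w in (ang p)..(ang (lst p l)), gg r (kz z1 z2 z3) w ≤
      2 / (1 + r) * ((go z1 z2 z3 (cA z1 z2 z3) (cB z1 z2 z3) (cM z1 z2 z3) (cL z1 z2 z3) p l :
        ℤ) / (30000 * (NN : ℝ) ^ 6)) := by
  intro l
  induction l with
  | nil => intro p _; simp [lst, go]
  | cons p' t ih =>
    intro p hok
    rw [ok, Bool.and_eq_true] at hok
    have hp : Okp z1 z2 z3 p p' := of_decide_eq_true hok.1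
    have ha := seg h1 h2 h3 hp hr hr1
    have hb := ih p' hok.2
    have hk : Continuous (kz z1 z2 z3) := cont_kk _ _ _ _
    have hc := cont_gg hr hr1 hk
    rw [lst, ← intervalIntegral.integral_add_adjacent_intervals (hc.intervalIntegrable (ang p)
      (ang p')) (hc.intervalIntegrable (ang p') _)]
    refine (add_le_add ha hb).trans (le_of_eq ?_)
    rw [go]
    push_cast
    ring

theorem cert_bound {z1 z2 z3 : ℤ × ℤ} {β : ℤ} (h : cert z1 z2 z3 β = true) {r : ℝ} (hr : 0 ≤ r)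
    (hr1 : r < 1) :
    ∫ w in (0 : ℝ)..Real.pi, (|kz z1 z2 z3 w| - r * Real.sin w * kz z1 z2 z3 w) /
      (1 - r ^ 2 * Real.sin w ^ 2) ≤ 2 / (1 + r) * ((β : ℝ) / 100000) := by
  rw [cert, Bool.and_eq_true, Bool.and_eq_true, Bool.and_eq_true] at h
  obtain ⟨⟨⟨hz, hok⟩, hl⟩, hg⟩ := h
  obtain ⟨h1, h2, h3⟩ := of_decide_eq_true hz
  have hl' := of_decide_eq_true hl
  have hg' := of_decide_eq_true hg
  have hb := list_bound h1 h2 h3 hr hr1 pts (NN, 0) hok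
  rw [hl'] at hb
  have hN := NN_pos
  have e0 : ang (NN, 0) = 0 := by
    rw [ang, div_self hN.ne', Real.arccos_one]
  have e1 : ang (-NN, 0) = Real.pi := by
    rw [ang]
    push_cast
    rw [neg_div, div_self hN.ne', Real.arccos_neg_one]
  rw [e0, e1] at hb
  refine (show (∫ w in (0 : ℝ)..Real.pi, (|kz z1 z2 z3 w| - r * Real.sin w * kz z1 z2 z3 w) /
      (1 - r ^ 2 * Real.sin w ^ 2)) = ∫ w in (0 : ℝ)..Real.pi, gg r (kz z1 z2 z3) w from rfl).le.trans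
    (hb.trans ?_)
  refine mul_le_mul_of_nonneg_left ?_ (by positivity)
  rw [div_le_div_iff₀ (by positivity) (by norm_num)]
  have hg'' : (10 : ℝ) * (go z1 z2 z3 (cA z1 z2 z3) (cB z1 z2 z3) (cM z1 z2 z3) (cL z1 z2 z3)
    (NN, 0) pts : ℤ) ≤ 3 * β * NN ^ 6 := by exact_mod_cast hg'
  linarith

end Pool.Agent.L7h77.FA.NM
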