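import Pool.Agent.H241R3.FV.Stmts2

/-!
# Project FA (helper77): all nonshortcutting fillings of the circle have area at least
`(93/100) 2π`, orientable or not (hard anchor MP_aeade1_gt; known for all fillings: `0.8106`)

`M` a filling of the circle, `f_θ(q) = π/2 - d(θ, q)` (extended distance functions). For `x` in the open
unit disc put `T x F = (1 - |x|²) ∫ (F θ - arcsin ⟨x, θ⟩) (1 - ⟨x, θ⟩²)^(-3/2) θ dθ`. For every `x` the
map `q ↦ T x (f(q))` of `M` to the plane covers a ball around `0`, uniformly for `|x| ≤ r0` (parity), and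
has Jacobian at most `π² √(1 - |x|²)`. For every `1`-Lipschitz function `F` on the circle `x ↦ T x F` is
injective (its derivative is negative definite, `S_N2`), and its Jacobian is at least
`π² (1 - κ (2r/(1+r))²) - C |T|`, `r = |x|` (`S_N1`, numerical constants). Counting in two ways gives
the theorem.
-/

set_option autoImplicit false
set_option linter.unusedVariables false

open MeasureTheory Metric Set Filter Topology InnerProductGeometry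

namespace Pool.Agent.L7h77.FA

open Pool.Agent.H241R3.FV (E Sph sig ext gnorm act mat RChart Fill)

/-- 1-Lipschitz functions on the circle -/
def Lip1 (F : Sph 2 → ℝ) : Prop :=
  ∀ θ θ' : Sph 2, |F θ - F θ'| ≤ angle (θ : E 2) (θ' : E 2)

/-- `√(1 - ⟨x, θ⟩²)` -/
noncomputable def DD (x θ : E 2) : ℝ := √(1 - (inner ℝ x θ : ℝ) ^ 2)

/-- the vector `T` -/
noncomputable def T (F : Sph 2 → ℝ) (x : E 2) : E 2 :=
  (1 - ‖x‖ ^ 2) • ∫ θ : Sph 2, ((F θ - Real.arcsin (inner ℝ x (θ : E 2))) / DD x (θ : E 2) ^ 3) •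
    (θ : E 2) ∂(sig 2)

/-- the functions of the points of `M` -/
noncomputable def FF {M : Type} [MetricSpace M] (bd : Sph 2 → M) (q : M) (θ : Sph 2) : ℝ :=
  Real.pi / 2 - ext bd θ q

/-- boundary points are not closer in `M` -/
def NS {M : Type} [MetricSpace M] (bd : Sph 2 → M) : Prop :=
  ∀ x y : Sph 2, angle (x : E 2) (y : E 2) ≤ dist (bd x) (bd y)

/-! ### the side of `M` -/

/-- [FA-FF] elementary facts (from `TaskExt`) -/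
def S_FF : Prop := ∀ (M : Type) [MetricSpace M] (bd : Sph 2 → M), NS bd →
  (∀ q, Lip1 (FF bd q)) ∧ (∀ q q' θ, |FF bd q θ - FF bd q' θ| ≤ dist q q') ∧
  (∀ p θ : Sph 2, FF bd (bd p) θ = Real.arcsin (inner ℝ (p : E 2) (θ : E 2)))

/-- [FA-BD] boundary values: `(arcsin a - arcsin b) (a - b) ≥ (a - b)²`, `DD ≤ 1`. -/
def S_BD : Prop := ∀ (M : Type) [MetricSpace M] (bd : Sph 2 → M), NS bd → ∀ (x : E 2), ‖x‖ < 1 →
  ∀ p : Sph 2, Real.pi * (1 - ‖x‖ ^ 2) * ‖(p : E 2) - x‖ ^ 2 ≤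
    inner ℝ (T (FF bd (bd p)) x) ((p : E 2) - x)

/-- [FA-CV] covering: a Lipschitz map whose boundary values satisfy `⟨Φ(bd p), p - x⟩ ≥ m` covers
the ball of radius `m/4` (extend `p ↦ (p - x) - Φ(bd p)` to a Lipschitz map on `M`, add it to `Φ`
with a cutoff near the boundary, add `x`, and use `TaskCover`, `TaskCoverT`). -/
def S_CV : Prop := ∀ (d : ℕ), 1 ≤ d → ∀ (M : Type) [MetricSpace M] [CompactSpace M]
  (S : Fill d M), S.NonShort → (S.Triangulated ∨ S.NoRetraction) →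
  ∀ (Φ : M → E (d + 1)) (K : ℝ), (∀ q q', ‖Φ q - Φ q'‖ ≤ K * dist q q') →
  ∀ (x : E (d + 1)) (m : ℝ), 0 < m → ‖x‖ < 1 → m ≤ (1 - ‖x‖) ^ 2 →
  (∀ p : Sph (d + 1), m ≤ inner ℝ (Φ (S.bd p)) ((p : E (d + 1)) - x)) →
  ball (0 : E (d + 1)) (m / 4) ⊆ range Φ

/-- [FA-LQ] Lipschitz constant in `F` -/
def S_LQ : Prop := ∀ (x : E 2), ‖x‖ < 1 → ∀ (F F' : Sph 2 → ℝ) (δ : ℝ), Lip1 F → Lip1 F' →
  (∀ θ, |F θ - F' θ| ≤ δ) → ‖T F x - T F' x‖ ≤ 2 * Real.pi / √(1 - ‖x‖ ^ 2) * δ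

/-- [FA-CQ] joint continuity -/
def S_CQ : Prop := ∀ (M : Type) [MetricSpace M] (bd : Sph 2 → M), NS bd →
  ContinuousOn (fun z : E 2 × M => T (FF bd z.2) z.1) {z | ‖z.1‖ < 1}

/-- [FA-DQ] derivative in a chart and Jacobian. For almost every `p` almost all functions
`p ↦ ext bd θ (C.map p)` are differentiable (`TDiff.ae_diff'`, `TDiff.fderiv_le`). With
`Γ = √(1 - x xᵀ)`, `det Γ = √(1 - |x|²)`, `|Γ θ| = DD x θ`, `∫ DD^(-2) dθ = 2π / √(1 - |x|²)`,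
apply `TaskMat` to `Γ L`. -/
def S_DQ : Prop := ∀ (M : Type) [MetricSpace M] (bd : Sph 2 → M), NS bd → ∀ C : RChart 2 M,
  ∀ᵐ p ∂(volume : Measure (E 2)), p ∈ C.U → ∀ x : E 2, ‖x‖ < 1 → ∃ L : E 2 →L[ℝ] E 2,
    HasFDerivAt (fun p' => T (FF bd (C.map p')) x) L p ∧
    |L.det| ≤ Real.pi ^ 2 * √(1 - ‖x‖ ^ 2) * √(C.G p).det

/-! ### the new angle -/

/-- the density `dt/dw = c / (1 - r² sin² w)`, `c = √(1 - r²)` -/
noncomputable def rho (r w : ℝ) : ℝ := √(1 - r ^ 2) / (1 - r ^ 2 * Real.sin w ^ 2)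

/-- `arcsin (r cos t)` in the new angle -/
noncomputable def aa (r w : ℝ) : ℝ := Real.arctan (r / √(1 - r ^ 2) * Real.cos w)

/-- the point of the circle with new angle `w`, in the orthonormal basis `e, e'` -/
noncomputable def Th (e e' : E 2) (r w : ℝ) : E 2 :=
  (√(1 - r ^ 2 * Real.sin w ^ 2))⁻¹ • (Real.cos w • e + (√(1 - r ^ 2) * Real.sin w) • e')

open Classical in
/-- a unit vector as a point of the circle -/
noncomputable def pt (v : E 2) : Sph 2 :=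
  if h : ‖v‖ = 1 then ⟨v, by simpa using h⟩ else ⟨EuclideanSpace.single 0 1, by simp⟩

/-- orthonormal bases -/
def ON (e e' : E 2) : Prop := ‖e‖ = 1 ∧ ‖e'‖ = 1 ∧ (inner ℝ e e' : ℝ) = 0

/-- periodic functions with Lipschitz density `rho` -/
structure LipR (r : ℝ) (f : ℝ → ℝ) : Prop where
  per : ∀ w, f (w + 2 * Real.pi) = f w
  lip : ∀ w w', |f w - f w'| ≤ |∫ u in w..w', rho r u|

/-- [FA-PAR] integration in the new angle: `t(w) = w + arctan ((c-1) sin w cos w / (cos² w + c sin² w))`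
has `t' = rho`, `t(0) = 0`, `t(2π) = 2π`, and `Th w = cos t(w) e + sin t(w) e'`. -/
def S_PAR : Prop := ∀ (e e' : E 2), ON e e' → ∀ r : ℝ, 0 ≤ r → r < 1 →
  (∀ w, ‖Th e e' r w‖ = 1) ∧
  (∀ G : Sph 2 → ℝ, Continuous G → ∫ θ : Sph 2, G θ ∂(sig 2) =
    ∫ w in (0 : ℝ)..(2 * Real.pi), G (pt (Th e e' r w)) * rho r w) ∧
  (∀ F : Sph 2 → ℝ, Lip1 F → LipR r (fun w => F (pt (Th e e' r w))))

/-- [FA-FR1] `T` in the new angle -/
def S_FR1 : Prop := ∀ (e e' : E 2), ON e e' → ∀ r : ℝ, 0 ≤ r → r < 1 → ∀ F : Sph 2 → ℝ, Lip1 F →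
  ∀ v : E 2, (inner ℝ (T F (r • e)) v : ℝ) = ∫ w in (0 : ℝ)..(2 * Real.pi),
    (F (pt (Th e e' r w)) - aa r w) *
      ((inner ℝ v e : ℝ) * Real.cos w + √(1 - r ^ 2) * (inner ℝ v e' : ℝ) * Real.sin w)

/-- [FA-FR2] the derivative of `T` in `x`, in the new angle -/
def S_FR2 : Prop := ∀ (e e' : E 2), ON e e' → ∀ r : ℝ, 0 ≤ r → r < 1 → ∀ F : Sph 2 → ℝ, Lip1 F →
  ∃ L : E 2 →L[ℝ] E 2, HasFDerivAt (T F) L (r • e) ∧ ∀ v v' : E 2,
    √(1 - r ^ 2) * (inner ℝ (L v') v : ℝ) =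
      -(∫ w in (0 : ℝ)..(2 * Real.pi),
        (1 - 3 * (r / √(1 - r ^ 2)) * Real.cos w * (F (pt (Th e e' r w)) - aa r w)) *
        ((inner ℝ v e : ℝ) * Real.cos w + √(1 - r ^ 2) * (inner ℝ v e' : ℝ) * Real.sin w) *
        ((inner ℝ v' e : ℝ) * Real.cos w + √(1 - r ^ 2) * (inner ℝ v' e' : ℝ) * Real.sin w)) -
      2 * (r / √(1 - r ^ 2)) * (inner ℝ v' e : ℝ) * (inner ℝ (T F (r • e)) v : ℝ)

/-! ### one variable -/

/-- [FA-DUA] duality: `∫ f k' ≤ ∫ rho |k|` (difference quotients, no derivative of `f`) -/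
def S_DUA : Prop := ∀ (r : ℝ) (f k k' : ℝ → ℝ), 0 ≤ r → r < 1 → LipR r f →
  (∀ w, HasDerivAt k (k' w) w) → Continuous k' → (∀ w, k (w + 2 * Real.pi) = k w) →
  ∫ w in (0 : ℝ)..(2 * Real.pi), f w * k' w ≤ ∫ w in (0 : ℝ)..(2 * Real.pi), rho r w * |k w|

/-- [FA-N2] monotonicity: `(sin w (p cos w + q sin w)²)' = 3 cos w (…)² - 2 p (…)`, `S_DUA`, and
`aa' = - r sin w rho`, `r |s| / (1 + r |s|) ≤ 1/2`. -/
def S_N2 : Prop := ∀ (r : ℝ) (f : ℝ → ℝ), 0 ≤ r → r < 1 → LipR r f → ∀ p q : ℝ,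
  3 * (r / √(1 - r ^ 2)) * (∫ w in (0 : ℝ)..(2 * Real.pi),
      (f w - aa r w) * Real.cos w * (p * Real.cos w + q * Real.sin w) ^ 2) ≤
    Real.pi / 2 * (p ^ 2 + q ^ 2) + 2 * (r / √(1 - r ^ 2)) * p *
      ∫ w in (0 : ℝ)..(2 * Real.pi), (f w - aa r w) * (p * Real.cos w + q * Real.sin w)

/-- the moments -/
noncomputable def m1 (r : ℝ) (f : ℝ → ℝ) : ℝ :=
  ∫ w in (0 : ℝ)..(2 * Real.pi), (f w - aa r w) * Real.cos w
noncomputable def m2 (r : ℝ) (f : ℝ → ℝ) : ℝ :=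
  ∫ w in (0 : ℝ)..(2 * Real.pi), (f w - aa r w) * Real.sin w
noncomputable def xx (r : ℝ) (f : ℝ → ℝ) : ℝ := 3 * (r / √(1 - r ^ 2)) *
  ∫ w in (0 : ℝ)..(2 * Real.pi), (f w - aa r w) * (Real.cos w * Real.cos (2 * w))
noncomputable def yy (r : ℝ) (f : ℝ → ℝ) : ℝ := 3 * (r / √(1 - r ^ 2)) *
  ∫ w in (0 : ℝ)..(2 * Real.pi), (f w - aa r w) * (Real.cos w * Real.sin (2 * w))

/-- the trigonometric polynomial with direction `(a, b)` (a unit vector) -/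
noncomputable def kk (a b μ l w : ℝ) : ℝ :=
  a * Real.sin (3 * w) - b * Real.cos (3 * w) + μ * Real.sin w + l * Real.cos w

/-- [FA-N1] the bound in the direction `(a, b)`: `k' = 6 cos w (a cos 2w + b sin 2w) -
(3a - μ) cos w - (3b + l) sin w`, `S_DUA`, and symmetry `w ↦ w + π`. -/
def S_N1 : Prop := ∀ (r : ℝ) (f : ℝ → ℝ), 0 ≤ r → r < 1 → LipR r f → ∀ a b μ l : ℝ,
  a * xx r f + b * yy r f ≤ r / √(1 - r ^ 2) / 2 * ((3 * a - μ) * m1 r f + (3 * b + l) * m2 r f) +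
    r * ∫ w in (0 : ℝ)..Real.pi, (|kk a b μ l w| - r * Real.sin w * kk a b μ l w) /
      (1 - r ^ 2 * Real.sin w ^ 2)

/-! ### the side of the disc and the numerical part -/

/-- the numerical constant: `X² + Y² ≤ vv (2r/(1+r))²` up to `|T|` -/
noncomputable def vv : ℝ := 18 / 5

/-- [FA-W] the moments of third order -/
def S_W : Prop := ∀ r0 : ℝ, 0 < r0 → r0 < 1 → ∃ C : ℝ, 0 ≤ C ∧ ∀ (r : ℝ) (f : ℝ → ℝ), 0 ≤ r →
  r ≤ r0 → LipR r f → xx r f ^ 2 + yy r f ^ 2 ≤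
    vv * (2 * r / (1 + r)) ^ 2 + C * (|m1 r f| + |m2 r f|)

/-- the weight -/
noncomputable def psi (r : ℝ) : ℝ := 1 - vv / (4 * Real.pi ^ 2) * (2 * r / (1 + r)) ^ 2

/-- [FA-DET] lower bound for the Jacobian and injectivity (from `S_FR1`, `S_FR2`, `S_N2`, `S_W`) -/
def S_DET : Prop := ∀ r0 : ℝ, 0 < r0 → r0 < 1 → ∃ C : ℝ, 0 ≤ C ∧ ∀ F : Sph 2 → ℝ, Lip1 F →
  (∀ x : E 2, ‖x‖ ≤ r0 → ∃ L : E 2 →L[ℝ] E 2, HasFDerivAt (T F) L x ∧
    Real.pi ^ 2 * psi ‖x‖ - C * ‖T F x‖ ≤ |L.det|) ∧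
  (∀ x y : E 2, ‖x‖ < 1 → ‖y‖ < 1 → T F x = T F y → x = y)

/-- [FA-XS] the count for one function -/
def S_XS : Prop := ∀ r0 δ : ℝ, 0 < r0 → r0 < 1 → 0 < δ → ∃ ε0 : ℝ, 0 < ε0 ∧
  ∀ ε : ℝ, 0 < ε → ε ≤ ε0 → ∀ F : Sph 2 → ℝ, Lip1 F →
    ∫⁻ x in closedBall (0 : E 2) r0 ∩ {x | ‖T F x‖ < ε}, ENNReal.ofReal (Real.pi ^ 2 * psi ‖x‖) ≤
      ENNReal.ofReal (1 + δ) * volume (ball (0 : E 2) ε)

/-- [FA-RAD] the radial integral:
`-c - κ 4 (-c - 2 arcsin r - (8/3) c/(1+r) + c/(3 (1+r)²))`, `c = √(1 - r²)`, is a primitive of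
`r (1 - κ (2r/(1+r))²) / c`. -/
def S_RAD : Prop := ∀ b : ℝ, b < 1 - vv / (4 * Real.pi ^ 2) * (40 / 3 - 4 * Real.pi) →
  ∃ r0 : ℝ, 0 < r0 ∧ r0 < 1 ∧ ENNReal.ofReal (2 * Real.pi * b) ≤
    ∫⁻ x in closedBall (0 : E 2) r0, ENNReal.ofReal (psi ‖x‖ / √(1 - ‖x‖ ^ 2))

/-- [FA-MAIN] -/
def S_MAIN : Prop := ∀ (M : Type) [MetricSpace M] [CompactSpace M] (S : Fill 1 M), S.NonShort →
  (S.Triangulated ∨ S.NoRetraction) →
  ENNReal.ofReal (93 / 100) * ((volume : Measure (E 3)).toSphere univ / 2) ≤ S.vol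

end Pool.Agent.L7h77.FA
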